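import Pool.Agent.Helper53.WR.Defs
import Pool.Agent.Helper3.ThinRep

set_option autoImplicit false

namespace Pool.Agent.Helper53.WR

open Finset
open Pool.Agent.Helper3.Thin (dig und off Lab GoodSet)

/-- WR-C5 (range of a world). -/
theorem world_range {q : ℕ} [Fact q.Prime] (Γ : Finset (ZMod q × ZMod q))
    (T : Finset ℕ) (S Y : ℕ) (τ : ZMod q × ZMod q → ZMod q × ZMod q)
    (σ : (ZMod q × ZMod q) × (ZMod q × ZMod q) → ℕ) (hσ : ∀ p, σ p < S) (hT : ∀ t ∈ T, t < Y) :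
    ∀ b ∈ World Γ T S τ σ, q ^ 4 * S ≤ b ∧ b < q ^ 4 * (514 + 2 * S + Y) := by
  intro b hb
  unfold World Ind at hb
  rw [mem_image] at hb
  obtain ⟨x, hx, rfl⟩ := hb
  rw [mem_product] at hx
  have ht := hT _ hx.2
  have hs := hσ x.1.1
  have h1 := Pool.Agent.Helper3.Thin.und_lt x.1.1.1 (x.1.1.2 + τ x.1.1.1)
  have h2 := Pool.Agent.Helper3.Thin.off_le q (Fact.out : q.Prime).two_le x.1.2
  unfold elt
  constructor
  · calc q ^ 4 * S ≤ q ^ 4 * (S + σ x.1.1 + x.2) := Nat.mul_le_mul_left _ (by omega)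
      _ ≤ _ := Nat.le_add_left _ _
  · have h3 : q ^ 4 * (S + σ x.1.1 + x.2) ≤ q ^ 4 * (2 * S + Y) :=
      Nat.mul_le_mul_left _ (by omega)
    calc _ < q ^ 4 + 513 * q ^ 4 + q ^ 4 * (2 * S + Y) := by omega
      _ = _ := by ring

end Pool.Agent.Helper53.WR
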