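import Pool.Agent.Helper53.WR.Params

/-!
# Numerical inequalities for one world
-/

set_option autoImplicit false

namespace Pool.Agent.Helper53.WR

open Finset

lemma card_sq_le (T : Finset ℕ) (l f : ℕ) (hT : ∀ t ∈ T, t < 2 ^ l) (hf : ∀ n, repF T n ≤ f) :
    T.card ^ 2 ≤ 2 ^ (l + 1) * f := by
  have h1 : ((T ×ˢ T) : Finset (ℕ × ℕ)).card ≤ f * (range (2 ^ (l + 1))).card := by
    refine card_le_mul_card_image_of_maps_to (f := fun p : ℕ × ℕ => p.1 + p.2) ?_ f ?_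
    · intro p hp
      rw [mem_product] at hp
      rw [mem_range, pow_succ]
      have := hT _ hp.1
      have := hT _ hp.2
      omega
    · intro n _
      exact hf n
  rw [card_product, card_range] at h1
  calc T.card ^ 2 = T.card * T.card := by ring
    _ ≤ f * 2 ^ (l + 1) := h1
    _ = _ := by ring

lemma card_le_pow (T : Finset ℕ) (l f c : ℕ) (hT : ∀ t ∈ T, t < 2 ^ l) (hf : ∀ n, repF T n ≤ f)
    (e : ℕ) (he : f ≤ 2 ^ e) (hc : l + 1 + e ≤ 2 * c) : T.card ≤ 2 ^ c := by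
  have h := card_sq_le T l f hT hf
  have h2 : T.card ^ 2 ≤ (2 ^ c) ^ 2 := by
    calc T.card ^ 2 ≤ 2 ^ (l + 1) * f := h
      _ ≤ 2 ^ (l + 1) * 2 ^ e := Nat.mul_le_mul_left _ he
      _ = 2 ^ (l + 1 + e) := (pow_add 2 (l + 1) e).symm
      _ ≤ 2 ^ (2 * c) := Nat.pow_le_pow_right (by norm_num) hc
      _ = _ := by rw [mul_comm, pow_mul]
  exact (Nat.pow_le_pow_iff_left (by norm_num)).mp h2

/-- `hX` of `world_exists`. -/
lemma hX_bound (a e u : ℕ) (b : ℕ) (hb : 20 * a ≤ 2 ^ e) (he : b = 22 * a) (ha : 1 ≤ a) (S : ℝ)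
    (hS : S = 2 ^ (8 * u + 64 * e)) (H W : ℝ) (hH : H = 2 ^ (4 * u + 8 * e))
    (hW : W = 2 ^ (4 * u + 33 * e)) (AX : ℝ) (t0 : ℕ) (hAX : AX = 2 ^ (22 * e))
    (ht : 22 * e * t0 = b) :
    (((2 : ℝ) ^ (6 * a))) * 4096 * (Real.exp (AX * (((20 * a : ℕ) : ℝ) * H * W / S)) / AX ^ t0)
      < 1 / 2 := by
  have h1 : AX * (((20 * a : ℕ) : ℝ) * H * W / S) ≤ 1 := by
    rw [hS, hH, hW, hAX]
    have h20 : ((20 * a : ℕ) : ℝ) ≤ 2 ^ e := by exact_mod_cast hb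
    rw [mul_div_assoc', div_le_one (by positivity)]
    calc (2 : ℝ) ^ (22 * e) * (((20 * a : ℕ) : ℝ) * 2 ^ (4 * u + 8 * e) * 2 ^ (4 * u + 33 * e))
        ≤ 2 ^ (22 * e) * (2 ^ e * 2 ^ (4 * u + 8 * e) * 2 ^ (4 * u + 33 * e)) := by gcongr
      _ = 2 ^ (8 * u + 64 * e) := by
        rw [← pow_add, ← pow_add, ← pow_add]
        congr 1
        ring
  have h2 : Real.exp (AX * (((20 * a : ℕ) : ℝ) * H * W / S)) ≤ 3 := by
    calc _ ≤ Real.exp 1 := Real.exp_le_exp.mpr h1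
      _ ≤ 3 := by linarith [Real.exp_one_lt_d9]
  have h3 : AX ^ t0 = 2 ^ (22 * a) := by
    rw [hAX, ← pow_mul, ht, he]
  rw [h3]
  have h4 : (2 : ℝ) ^ (22 * a) = 2 ^ (6 * a) * 2 ^ (16 * a) := by
    rw [← pow_add]
    congr 1
    ring
  have h5 : (2 : ℝ) ^ 16 ≤ 2 ^ (16 * a) := pow_le_pow_right₀ (by norm_num) (by omega)
  rw [h4, mul_div_assoc', div_lt_iff₀ (by positivity)]
  have h6 : (0 : ℝ) < 2 ^ (6 * a) := by positivity
  have h7 : (2 : ℝ) ^ (6 * a) * 4096 * Real.exp (AX * (((20 * a : ℕ) : ℝ) * H * W / S))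
      ≤ 2 ^ (6 * a) * 4096 * 3 := by gcongr
  have h8 : (2 : ℝ) ^ (6 * a) * 2 ^ 16 ≤ 2 ^ (6 * a) * 2 ^ (16 * a) := by gcongr
  nlinarith

/-- A term of `hY` for `m = q_i ^ 2`. -/
lemma hY_sq {k a e u u' d : ℕ} (hL : Lin k a e u u' d) (h20 : 20 * a ≤ 2 ^ e) (Q m Tc S : ℝ)
    (c : ℕ) (hc : c + 2 = 2 * d + 4 * u' + e) (hQ0 : 0 ≤ Q) (hQ : Q ≤ 2 ^ (a + 1))
    (hm : 2 ^ (2 * (a + d)) ≤ m) (hm' : m ≤ 2 ^ (6 * a + 2)) (hT0 : 0 ≤ Tc) (hT : Tc ≤ 2 ^ c)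
    (hS : S = 2 ^ (8 * u + 64 * e)) (yy : ℕ) (hy : 4 * u' + 4 * e ≤ yy) :
    m * (Real.exp (2 * (((20 * a : ℕ) : ℝ) * (Tc * (Q ^ 2 / m + 1 / S)))) / 2 ^ (2 ^ yy))
      ≤ 1 / 2 ^ (2 * a) := by
  obtain ⟨k300, ke, eu, ua, uu, uu', ud, du⟩ := hL
  have hmpos : 0 < m := lt_of_lt_of_le (by positivity) hm
  have h20' : ((20 * a : ℕ) : ℝ) ≤ 2 ^ e := by exact_mod_cast h20
  have b1 : Tc * (Q ^ 2 / m) ≤ 2 ^ (4 * u' + e) := by
    rw [mul_div_assoc', div_le_iff₀ hmpos]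
    calc Tc * Q ^ 2 ≤ 2 ^ c * (2 ^ (a + 1)) ^ 2 := by gcongr
      _ = 2 ^ (4 * u' + e) * 2 ^ (2 * (a + d)) := by
        rw [← pow_mul, ← pow_add, ← pow_add]
        congr 1
        omega
      _ ≤ 2 ^ (4 * u' + e) * m := by gcongr
  have b2 : Tc * (1 / S) ≤ 2 ^ (4 * u' + e) := by
    rw [hS, mul_one_div, div_le_iff₀ (by positivity)]
    calc Tc ≤ 2 ^ c := hT
      _ ≤ 2 ^ (4 * u' + e + (8 * u + 64 * e)) := pow_le_pow_right₀ (by norm_num) (by omega)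
      _ = _ := pow_add _ _ _
  have b3 : ((20 * a : ℕ) : ℝ) * (Tc * (Q ^ 2 / m + 1 / S)) ≤ 2 ^ (4 * u' + 2 * e + 1) := by
    calc ((20 * a : ℕ) : ℝ) * (Tc * (Q ^ 2 / m + 1 / S))
        = ((20 * a : ℕ) : ℝ) * (Tc * (Q ^ 2 / m) + Tc * (1 / S)) := by ring
      _ ≤ 2 ^ e * (2 ^ (4 * u' + e) + 2 ^ (4 * u' + e)) := by
        apply mul_le_mul h20' (add_le_add b1 b2) _ (by positivity)
        rw [hS]
        positivity
      _ = 2 ^ e * 2 ^ (4 * u' + e + 1) := by rw [pow_succ 2 (4 * u' + e)]; ring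
      _ = _ := by
        rw [← pow_add]
        congr 1
        ring
  have b4 : Real.exp (2 * (((20 * a : ℕ) : ℝ) * (Tc * (Q ^ 2 / m + 1 / S))))
      ≤ 2 ^ (2 ^ (4 * u' + 2 * e + 3)) := by
    calc _ ≤ Real.exp ((2 ^ (4 * u' + 2 * e + 2) : ℕ) : ℝ) := by
          apply Real.exp_le_exp.mpr
          rw [Nat.cast_pow, Nat.cast_ofNat, pow_succ _ (4 * u' + 2 * e + 1)]
          linarith
      _ = Real.exp 1 ^ (2 ^ (4 * u' + 2 * e + 2)) := by rw [← Real.exp_nat_mul, mul_one]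
      _ ≤ 4 ^ (2 ^ (4 * u' + 2 * e + 2)) := by
          gcongr
          linarith [Real.exp_one_lt_d9]
      _ = 2 ^ (2 ^ (4 * u' + 2 * e + 3)) := by
          rw [show (4 : ℝ) = 2 ^ 2 by norm_num, ← pow_mul]
          congr 1
          ring
  have b5 : 6 * a + 2 + 2 ^ (4 * u' + 2 * e + 3) + 2 * a ≤ 2 ^ yy := by
    have c1 : 2 ^ e ≤ 2 ^ (4 * u' + 2 * e + 3) := Nat.pow_le_pow_right (by norm_num) (by omega)
    have c2 : 2 * 2 ^ (4 * u' + 2 * e + 3) ≤ 2 ^ yy := by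
      rw [← pow_succ']
      exact Nat.pow_le_pow_right (by norm_num) (by omega)
    omega
  calc m * (Real.exp (2 * (((20 * a : ℕ) : ℝ) * (Tc * (Q ^ 2 / m + 1 / S)))) / 2 ^ (2 ^ yy))
      ≤ 2 ^ (6 * a + 2) * (2 ^ (2 ^ (4 * u' + 2 * e + 3)) / 2 ^ (2 ^ yy)) := by gcongr
    _ ≤ 1 / 2 ^ (2 * a) := by
      rw [mul_div_assoc', div_le_div_iff₀ (by positivity) (by positivity), one_mul, ← pow_add,
        ← pow_add]
      exact pow_le_pow_right₀ (by norm_num) b5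

/-- A term of `hY` for `m = q_i ^ 4`. -/
lemma hY_four {k a e u u' d : ℕ} (hL : Lin k a e u u' d) (h20 : 20 * a ≤ 2 ^ e) (Q m Tc S : ℝ)
    (c : ℕ) (hc : c + 2 = 2 * d + 4 * u' + e) (hQ0 : 0 ≤ Q) (hQ : Q ≤ 2 ^ (a + 1))
    (hm : 2 ^ (4 * (a + d)) ≤ m) (hm' : m ≤ 2 ^ (12 * a + 4)) (hT0 : 0 ≤ Tc) (hT : Tc ≤ 2 ^ c)
    (hS : S = 2 ^ (8 * u + 64 * e)) (huk : 3 * a ≤ u * k) :
    m * (Real.exp (2 ^ u * (((20 * a : ℕ) : ℝ) * (Tc * (Q ^ 2 / m + 1 / S))))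
      / (2 ^ u) ^ (8 * k)) ≤ 1 / 2 ^ (2 * a) := by
  obtain ⟨k300, ke, eu, ua, uu, uu', ud, du⟩ := hL
  have hmpos : 0 < m := lt_of_lt_of_le (by positivity) hm
  have h20' : ((20 * a : ℕ) : ℝ) ≤ 2 ^ e := by exact_mod_cast h20
  have b1 : 2 ^ u * (2 ^ e * (Tc * (Q ^ 2 / m))) ≤ 1 / 2 := by
    rw [mul_div_assoc', mul_div_assoc', mul_div_assoc', div_le_div_iff₀ hmpos (by norm_num)]
    calc 2 ^ u * (2 ^ e * (Tc * Q ^ 2)) * 2 ≤ 2 ^ u * (2 ^ e * (2 ^ c * (2 ^ (a + 1)) ^ 2)) * 2 := by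
          gcongr
      _ = 2 ^ (u + e + c + 2 * a + 3) := by
        rw [← pow_mul, ← pow_add, ← pow_add, ← pow_add, ← pow_succ]
        congr 1
        omega
      _ ≤ 2 ^ (4 * (a + d)) := pow_le_pow_right₀ (by norm_num) (by omega)
      _ ≤ 1 * m := by rw [one_mul]; exact hm
  have b2 : 2 ^ u * (2 ^ e * (Tc * (1 / S))) ≤ 1 / 2 := by
    rw [hS, mul_one_div, mul_div_assoc', mul_div_assoc', div_le_div_iff₀ (by positivity)
      (by norm_num)]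
    calc 2 ^ u * (2 ^ e * Tc) * 2 ≤ 2 ^ u * (2 ^ e * 2 ^ c) * 2 := by gcongr
      _ = 2 ^ (u + e + c + 1) := by
        rw [← pow_add, ← pow_add, ← pow_succ]
        congr 1
        omega
      _ ≤ 2 ^ (8 * u + 64 * e) := pow_le_pow_right₀ (by norm_num) (by omega)
      _ = 1 * _ := (one_mul _).symm
  have b3 : 2 ^ u * (((20 * a : ℕ) : ℝ) * (Tc * (Q ^ 2 / m + 1 / S))) ≤ 1 := by
    have hSpos : 0 < S := by rw [hS]; positivity
    calc 2 ^ u * (((20 * a : ℕ) : ℝ) * (Tc * (Q ^ 2 / m + 1 / S)))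
        ≤ 2 ^ u * (2 ^ e * (Tc * (Q ^ 2 / m + 1 / S))) := by gcongr
      _ = 2 ^ u * (2 ^ e * (Tc * (Q ^ 2 / m))) + 2 ^ u * (2 ^ e * (Tc * (1 / S))) := by ring
      _ ≤ 1 / 2 + 1 / 2 := add_le_add b1 b2
      _ = 1 := by norm_num
  have b4 : Real.exp (2 ^ u * (((20 * a : ℕ) : ℝ) * (Tc * (Q ^ 2 / m + 1 / S)))) ≤ 2 ^ 2 := by
    calc _ ≤ Real.exp 1 := Real.exp_le_exp.mpr b3
      _ ≤ 2 ^ 2 := by linarith [Real.exp_one_lt_d9]
  calc m * (Real.exp (2 ^ u * (((20 * a : ℕ) : ℝ) * (Tc * (Q ^ 2 / m + 1 / S))))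
      / (2 ^ u) ^ (8 * k)) ≤ 2 ^ (12 * a + 4) * (2 ^ 2 / (2 ^ u) ^ (8 * k)) := by gcongr
    _ ≤ 1 / 2 ^ (2 * a) := by
      rw [mul_div_assoc', div_le_div_iff₀ (by positivity) (by positivity), one_mul, ← pow_add,
        ← pow_add, ← pow_mul]
      apply pow_le_pow_right₀ (by norm_num)
      have : u * (8 * k) = 8 * (u * k) := by ring
      omega

/-- The indices of the near moduli. -/
def nearP (M k : ℕ) : Finset ℕ := (range (3 * k ^ M + 1)).filter (fun i => k < i ∧ i ^ M ≤ 3 * k ^ M)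

/-- The near moduli. -/
def modP (M k : ℕ) (q : ℕ → ℕ) : Finset ℕ :=
  (nearP M k).image (fun i => q i ^ 2) ∪ (nearP M k).image (fun i => q i ^ 4)

lemma mem_nearP {M k i : ℕ} (hM : 1 ≤ M) : i ∈ nearP M k ↔ k < i ∧ i ^ M ≤ 3 * k ^ M := by
  unfold nearP
  rw [mem_filter, mem_range]
  constructor
  · exact fun h => h.2
  · intro h
    exact ⟨by have := Nat.le_self_pow (by omega : M ≠ 0) i; omega, h⟩

lemma card_nearP_le (M k : ℕ) (hk : 1 ≤ k) : (nearP M k).card ≤ 3 * k ^ M := by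
  unfold nearP
  have h : (range (3 * k ^ M + 1)).filter (fun i => k < i ∧ i ^ M ≤ 3 * k ^ M) ⊆
      (range (3 * k ^ M + 1)).erase 0 := by
    intro i hi
    rw [mem_filter] at hi
    rw [mem_erase]
    exact ⟨by omega, hi.1⟩
  refine (card_le_card h).trans ?_
  rw [card_erase_of_mem (mem_range.mpr (Nat.succ_pos _)), card_range]
  omega

lemma sum_modP_le (M k : ℕ) (q : ℕ → ℕ) (g : ℕ → ℝ) (hg : ∀ m, 0 ≤ g m) (B : ℝ)
    (h2 : ∀ i ∈ nearP M k, g (q i ^ 2) ≤ B) (h4 : ∀ i ∈ nearP M k, g (q i ^ 4) ≤ B) :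
    ∑ m ∈ modP M k q, g m ≤ 2 * ((nearP M k).card * B) := by
  classical
  unfold modP
  have h1 : ∑ m ∈ (nearP M k).image (fun i => q i ^ 2) ∪ (nearP M k).image (fun i => q i ^ 4), g m
      ≤ ∑ m ∈ (nearP M k).image (fun i => q i ^ 2), g m
        + ∑ m ∈ (nearP M k).image (fun i => q i ^ 4), g m := by
    rw [← sum_union_inter]
    exact le_add_of_nonneg_right (sum_nonneg (fun m _ => hg m))
  have h3 : ∀ c : ℕ → ℕ, (∀ i ∈ nearP M k, g (c i) ≤ B) →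
      ∑ m ∈ (nearP M k).image c, g m ≤ (nearP M k).card * B := by
    intro c hc
    refine (sum_image_le_of_nonneg ?_).trans ?_
    · exact fun m _ => hg m
    · calc ∑ i ∈ nearP M k, g (c i) ≤ ∑ i ∈ nearP M k, B := sum_le_sum hc
        _ = _ := by rw [sum_const, nsmul_eq_mul]
  have h5 := h3 _ h2
  have h6 := h3 _ h4
  linarith

end Pool.Agent.Helper53.WR
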