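import Pool.Agent.Helper53.WR.TowWorld
import Pool.Agent.Helper30.WR.GlobalSet

/-!
# The union of the worlds of a tower (after Helper30.WR.global_set)
-/

set_option autoImplicit false

namespace Pool.Agent.Helper53.WR

open Finset Filter
open Pool.Agent.Helper30.WR (card_class_le_one)

/-- The invariant of the recursion. -/
structure TInv (a u e κ : ℕ → ℕ) (q : ℕ → ℕ) (k : ℕ) (O : Finset ℕ) : Prop where
  bd : ∀ o ∈ O, o < 2 ^ (4 * a k + 8 * u k)
  c2 : ∀ i, k ≤ i → ∀ r, (O.filter (fun o => o % (q i) ^ 2 = r)).card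
      ≤ 1 + k * (4096 * 2 ^ (4 * u i + 4 * e i))
  c4 : ∀ i, k ≤ i → ∀ r, (O.filter (fun o => o % (q i) ^ 4 = r)).card
      ≤ 1 + k * (4096 * (8 * κ k))

lemma tinv_empty (a u e κ : ℕ → ℕ) (q : ℕ → ℕ) (k : ℕ) : TInv a u e κ q k ∅ :=
  ⟨by simp, by simp, by simp⟩

lemma tinv_step {a u e t κ f : ℕ → ℕ} {q : ℕ → ℕ} {T : Finset ℕ} {k : ℕ} {O A : Finset ℕ}
    (hN : Tow a u e t κ f) (hq : ∀ i, (q i).Prime ∧ 2 ^ (a i) < q i ∧ q i ≤ 2 ^ (a i + 1))
    (hI : TInv a u e κ q k O) (hA : TW a u e t κ f q T k O A) :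
    TInv a u e κ q (k + 1) (O ∪ A) := by
  have hmono : a k ≤ a (k + 1) := hN.strictMono.monotone (Nat.le_succ k)
  have huu' := hN.uu' k
  have hkk := hN.kk' k
  have hbd : ∀ o ∈ O ∪ A, o < 2 ^ (4 * a (k + 1) + 8 * u (k + 1)) := by
    intro o ho
    rcases mem_union.mp ho with h | h
    · exact lt_of_lt_of_le (hI.bd o h) (Nat.pow_le_pow_right (by norm_num) (by omega))
    · exact (hA.rng o h).2
  have hexp : 4 * a (k + 1) + 8 * u (k + 1) ≤ 6 * a k := by
    have h1 := hN.step k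
    have h2 := hN.uu k
    have h3 := hN.ua k
    omega
  have hbig : ∀ i, ¬ a i ≤ 3 * a k → ∀ o ∈ O ∪ A, o < (q i) ^ 2 := by
    intro i hi o ho
    have h1 := hbd o ho
    have h2 : (2 : ℕ) ^ (4 * a (k + 1) + 8 * u (k + 1)) ≤ 2 ^ (2 * a i) :=
      Nat.pow_le_pow_right (by norm_num) (by omega)
    have h3 : (2 : ℕ) ^ (2 * a i) ≤ (q i) ^ 2 := by
      rw [mul_comm, pow_mul]
      exact Nat.pow_le_pow_left (hq i).2.1.le 2
    omega
  have hle24 : ∀ i, (q i) ^ 2 ≤ (q i) ^ 4 := fun i =>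
    Nat.pow_le_pow_right (hq i).1.pos (by norm_num)
  refine ⟨hbd, ?_, ?_⟩
  · intro i hi r
    by_cases hc : a i ≤ 3 * a k
    · rw [filter_union]
      have h1 := hI.c2 i (by omega) r
      have h2 := hA.res2 i (by omega) hc r
      have h3 := card_union_le (O.filter (fun o => o % (q i) ^ 2 = r))
        (A.filter (fun o => o % (q i) ^ 2 = r))
      have e : 1 + (k + 1) * (4096 * 2 ^ (4 * u i + 4 * e i))
        = 1 + k * (4096 * 2 ^ (4 * u i + 4 * e i)) +
          4096 * 2 ^ (4 * u i + 4 * e i) := by ring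
      rw [e]
      omega
    · have h1 := card_class_le_one (O ∪ A) ((q i) ^ 2) (hbig i hc) r
      exact h1.trans (Nat.le_add_right _ _)
  · intro i hi r
    by_cases hc : a i ≤ 3 * a k
    · rw [filter_union]
      have h1 := hI.c4 i (by omega) r
      have h2 := hA.res4 i (by omega) hc r
      have h3 := card_union_le (O.filter (fun o => o % (q i) ^ 4 = r))
        (A.filter (fun o => o % (q i) ^ 4 = r))
      have e : 1 + k * (4096 * (8 * κ k)) + 4096 * (8 * κ k) ≤
          1 + (k + 1) * (4096 * (8 * κ (k + 1))) := by nlinarith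
      omega
    · have h1 := card_class_le_one (O ∪ A) ((q i) ^ 4)
        (fun o ho => lt_of_lt_of_le (hbig i hc o ho) (hle24 i)) r
      exact h1.trans (Nat.le_add_right _ _)

lemma texists_primes (a : ℕ → ℕ) :
    ∃ q : ℕ → ℕ, ∀ i, (q i).Prime ∧ 2 ^ (a i) < q i ∧ q i ≤ 2 ^ (a i + 1) := by
  have h : ∀ i : ℕ, ∃ p : ℕ, p.Prime ∧ 2 ^ (a i) < p ∧ p ≤ 2 ^ (a i + 1) := by
    intro i
    obtain ⟨p, hp, h1, h2⟩ := Nat.exists_prime_lt_and_le_two_mul (2 ^ (a i)) (by positivity)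
    refine ⟨p, hp, h1, ?_⟩
    rw [pow_succ]
    omega
  choose q hq using h
  exact ⟨q, hq⟩

lemma texpo_mono {a u e t κ f : ℕ → ℕ} (h : Tow a u e t κ f) :
    Monotone (fun k : ℕ => 4 * a k + thT u e k) := by
  intro x y hxy
  have h1 := h.strictMono.monotone hxy
  have h2 := h.mono_u hxy
  have h3 := h.mono_e hxy
  simp only [thT]
  omega

/-- WR2-1 (the union of all worlds, general parameters), with the finite pieces. -/
theorem tower_pieces {a u e t κ f : ℕ → ℕ} (h : Tow a u e t κ f) (T : ℕ → Finset ℕ)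
    (hT : ∀ k, ∀ x ∈ T k, x < 2 ^ laT u k) (hf : ∀ k n, repF (T k) n ≤ f k) :
    ∃ (q : ℕ → ℕ) (S Ak : ℕ → Finset ℕ),
      (∀ i, (q i).Prime ∧ 2 ^ (a i) < q i ∧ q i ≤ 2 ^ (a i + 1)) ∧ S 0 = ∅ ∧
      (∀ k, S (k + 1) = S k ∪ Ak k) ∧ (∀ k, TInv a u e κ q k (S k)) ∧
      (∀ k, TW a u e t κ f q (T k) k (S k) (Ak k)) := by
  classical
  obtain ⟨q, hq⟩ := texists_primes a
  have hex : ∀ k, ∀ O : Finset ℕ, TInv a u e κ q k O → ∃ A, TW a u e t κ f q (T k) k O A := by
    intro k O hO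
    exact tower_world h k q hq (T k) O (hT k) (hf k) hO.bd (hO.c2 k le_rfl) (hO.c4 k le_rfl)
  let W : ℕ → Finset ℕ → Finset ℕ := fun k O =>
    if h : TInv a u e κ q k O then Classical.choose (hex k O h) else ∅
  have hW : ∀ k, ∀ O : Finset ℕ, TInv a u e κ q k O → TW a u e t κ f q (T k) k O (W k O) := by
    intro k O hO
    have : W k O = Classical.choose (hex k O hO) := by
      simp only [W]
      rw [dif_pos hO]
    rw [this]
    exact Classical.choose_spec (hex k O hO)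
  let S : ℕ → Finset ℕ := fun s => Nat.rec ∅ (fun s O => O ∪ W s O) s
  have hS0 : S 0 = ∅ := rfl
  have hS1 : ∀ s, S (s + 1) = S s ∪ W s (S s) := fun s => rfl
  have hinv : ∀ s, TInv a u e κ q s (S s) := by
    intro s
    induction s with
    | zero => rw [hS0]; exact tinv_empty _ _ _ _ _ _
    | succ s ih =>
      rw [hS1]
      exact tinv_step h hq ih (hW _ _ ih)
  exact ⟨q, S, fun s => W s (S s), hq, hS0, hS1, hinv, fun s => hW _ _ (hinv s)⟩

/-- WR2-1 (the union of all worlds, general parameters). -/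
theorem tower {a u e t κ f : ℕ → ℕ} (h : Tow a u e t κ f) (T : ℕ → Finset ℕ)
    (hT : ∀ k, ∀ x ∈ T k, x < 2 ^ laT u k) (hf : ∀ k n, repF (T k) n ≤ f k) :
    ∃ A : Set ℕ, (∀ n, n < 2 ^ (4 * a 0 + thT u e 0) → rep A n = 0) ∧
      (∀ k n, 2 ^ (4 * a k + thT u e k) ≤ n → n < 2 ^ (4 * a (k + 1) + thT u e (k + 1)) →
        rep A n ≤ 4096 ^ 2 * 2592 * f k + 2 * (4096 * (t k * (1 + k * (4096 * (8 * κ k)))))) ∧
      (∀ k j, 4 * a k + thT u e k + 8 ≤ j → j + 1 ≤ 4 * a k + laT u k →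
        (∀ i, i ≤ 5 → CovBlock (T k : Set ℕ) (j - 4 * a k - i)) → CovBlock A j) := by
  classical
  obtain ⟨q, S, Ak, hq, hS0, hS1, hinv, hAk⟩ := tower_pieces h T hT hf
  have hsub : ∀ s s', s' < s → Ak s' ⊆ S s := by
    intro s
    induction s with
    | zero => intro s' h; omega
    | succ s ih =>
      intro s' h
      rw [hS1]
      rcases Nat.lt_succ_iff_lt_or_eq.mp h with h | h
      · exact (ih s' h).trans subset_union_left
      · subst h
        exact subset_union_right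
  let A : Set ℕ := {x | ∃ s, x ∈ Ak s}
  have hlow : ∀ x ∈ A, 2 ^ (4 * a 0 + thT u e 0) ≤ x := by
    rintro x ⟨s, hs⟩
    refine le_trans (Nat.pow_le_pow_right (by norm_num) ?_) ((hAk s).rng x hs).1
    exact texpo_mono h (Nat.zero_le s)
  refine ⟨A, ?_, ?_, ?_⟩
  · intro n hn
    unfold rep
    have : ({p : ℕ × ℕ | p.1 ∈ A ∧ p.2 ∈ A ∧ p.1 + p.2 = n} : Set (ℕ × ℕ)) = ∅ := by
      rw [Set.eq_empty_iff_forall_notMem]
      rintro ⟨x, y⟩ ⟨h1, h2, h3⟩
      have := hlow x h1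
      simp only at h3
      omega
    rw [this, Set.ncard_empty]
  · intro s n hn1 hn2
    have H := hAk s
    have hmem : ∀ x ∈ A, x ≤ n → x ∈ S s ∨ x ∈ Ak s := by
      rintro x ⟨s', hs'⟩ han
      have h1 := ((hAk s').rng x hs').1
      have h2 : s' ≤ s := by
        by_contra hcon
        have h3 : 4 * a (s + 1) + thT u e (s + 1) ≤ 4 * a s' + thT u e s' :=
          texpo_mono h (show s + 1 ≤ s' by omega)
        have h4 : (2 : ℕ) ^ (4 * a (s + 1) + thT u e (s + 1)) ≤ 2 ^ (4 * a s' + thT u e s') :=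
          Nat.pow_le_pow_right (by norm_num) h3
        omega
      rcases Nat.lt_or_eq_of_le h2 with h | h
      · exact Or.inl (hsub s s' h hs')
      · subst h
        exact Or.inr hs'
    have hOO : ∀ x ∈ S s, ∀ y ∈ S s, x + y ≠ n := by
      intro x hx y hy hxy
      have h1 := (hinv s).bd x hx
      have h2 := (hinv s).bd y hy
      have h3 : 4 * a s + 8 * u s + 1 ≤ 4 * a s + thT u e s := by
        have := h.e300 s
        unfold thT
        omega
      have h4 : (2 : ℕ) ^ (4 * a s + 8 * u s + 1) ≤ 2 ^ (4 * a s + thT u e s) :=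
        Nat.pow_le_pow_right (by norm_num) h3
      rw [pow_succ] at h4
      omega
    have hle : rep A n ≤ (((Ak s ×ˢ Ak s).filter (fun p => p.1 + p.2 = n)) ∪
        (((Ak s ×ˢ S s).filter (fun z => z.1 + z.2 = n)) ∪
          ((Ak s ×ˢ S s).filter (fun z => z.1 + z.2 = n)).image Prod.swap)).card := by
      unfold rep
      rw [← Set.ncard_coe_finset]
      refine Set.ncard_le_ncard ?_ (Finset.finite_toSet _)
      rintro ⟨x, y⟩ ⟨h1, h2, h3⟩
      simp only at h1 h2 h3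
      have hx := hmem x h1 (by omega)
      have hy := hmem y h2 (by omega)
      rw [mem_coe, mem_union, mem_union]
      rcases hx with hx | hx <;> rcases hy with hy | hy
      · exact absurd h3 (hOO x hx y hy)
      · right; right
        rw [mem_image]
        refine ⟨(y, x), ?_, rfl⟩
        rw [mem_filter, mem_product]
        exact ⟨⟨hy, hx⟩, by simp only; omega⟩
      · right; left
        rw [mem_filter, mem_product]
        exact ⟨⟨hx, hy⟩, h3⟩
      · left
        rw [mem_filter, mem_product]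
        exact ⟨⟨hx, hy⟩, h3⟩
    have h1 := H.self n
    have h2 := H.cross n
    have h3 : (((Ak s ×ˢ S s).filter (fun z => z.1 + z.2 = n)).image Prod.swap).card
        ≤ 4096 * (t s * (1 + s * (4096 * (8 * κ s)))) :=
      card_image_le.trans h2
    have h4 := card_union_le ((Ak s ×ˢ Ak s).filter (fun p => p.1 + p.2 = n))
      (((Ak s ×ˢ S s).filter (fun z => z.1 + z.2 = n)) ∪
          ((Ak s ×ˢ S s).filter (fun z => z.1 + z.2 = n)).image Prod.swap)
    have h5 := card_union_le ((Ak s ×ˢ S s).filter (fun z => z.1 + z.2 = n))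
      (((Ak s ×ˢ S s).filter (fun z => z.1 + z.2 = n)).image Prod.swap)
    unfold repF at h1
    omega
  · intro s j hj1 hj2 hcov
    have hc : CovBlock (Ak s : Set ℕ) j := (hAk s).cov j hj1 hj2 hcov
    intro n hn1 hn2
    obtain ⟨x, hx, y, hy, hxy⟩ := hc n hn1 hn2
    exact ⟨x, ⟨s, hx⟩, y, ⟨s, hy⟩, hxy⟩

end Pool.Agent.Helper53.WR
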