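import Pool.Agent.Helper53.WR.Defs

/-!
# Towers of worlds with general parameters

World `k` uses a prime `q k` with `2 ^ a k < q k ≤ 2 ^ (a k + 1)`; `a (k + 1) = a k + u k`.
Its elements lie in `[2 ^ (4 * a k + thT k), 2 ^ (4 * a (k + 1) + 8 * u (k + 1)))`, its top part is a
finite set `T k ⊆ [0, 2 ^ laT k)` whose number of representations is at most `f k`.
-/

set_option autoImplicit false

namespace Pool.Agent.Helper53.WR

open Finset

/-- Admissible parameters. -/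
structure Tow (a u e t κ f : ℕ → ℕ) : Prop where
  step : ∀ k, a (k + 1) = a k + u k
  e300 : ∀ k, 300 ≤ e k
  eu : ∀ k, 100 * e k ≤ u k
  ua : ∀ k, 100 * u k ≤ a k
  uu : ∀ k, 6 * u (k + 1) ≤ 7 * u k
  uu' : ∀ k, u k ≤ u (k + 1)
  ee' : ∀ k, e k ≤ e (k + 1)
  kk' : ∀ k, κ k ≤ κ (k + 1)
  h20 : ∀ k, 20 * a k ≤ 2 ^ e k
  hf : ∀ k, f k ≤ 2 ^ e k
  ht : ∀ k, a k ≤ e k * t k
  hκ : ∀ k, 3 * a k ≤ u k * κ k

/-- Length of the shift of world `k`. -/
def thT (u e : ℕ → ℕ) (k : ℕ) : ℕ := 8 * u k + 64 * e k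

/-- Length of the top part of world `k`. -/
def laT (u : ℕ → ℕ) (k : ℕ) : ℕ := 4 * u k + 8 * u (k + 1) - 5

/-- A finite set below `2 ^ J` with at most `R` representations for every number and at most `B`
dyadic blocks below `2 ^ J` that are not covered. -/
def FinB (J R B : ℕ) : Prop :=
  ∃ A : Finset ℕ, (∀ x ∈ A, x < 2 ^ J) ∧ (∀ n, repF A n ≤ R) ∧ badCount (A : Set ℕ) J ≤ B

end Pool.Agent.Helper53.WR
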