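import Pool.Agent.Helper53.WR.Numeric
import Pool.Agent.Helper53.WR.TowDefs

/-!
# Numerical inequalities for towers
-/

set_option autoImplicit false

namespace Pool.Agent.Helper53.WR

open Finset

/-- `hX` of `world_exists`. -/
lemma tX_bound (a e u : ℕ) (hb : 20 * a ≤ 2 ^ e) (ha : 1 ≤ a) (S : ℝ)
    (hS : S = 2 ^ (8 * u + 64 * e)) (H W : ℝ) (hH : H = 2 ^ (4 * u + 8 * e))
    (hW : W = 2 ^ (4 * u + 33 * e)) (AX : ℝ) (t0 : ℕ) (hAX : AX = 2 ^ (22 * e))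
    (ht : a ≤ e * t0) :
    (((2 : ℝ) ^ (6 * a))) * 4096 * (Real.exp (AX * (((20 * a : ℕ) : ℝ) * H * W / S)) / AX ^ t0)
      < 1 / 2 := by
  have h0 := hX_bound a e u (22 * a) hb rfl ha S hS H W hH hW AX t0 hAX
  have h1 : AX * (((20 * a : ℕ) : ℝ) * H * W / S) ≤ 1 := by
    rw [hS, hH, hW, hAX]
    have h20 : ((20 * a : ℕ) : ℝ) ≤ 2 ^ e := by exact_mod_cast hb
    rw [mul_div_assoc', div_le_one (by positivity)]
    calc (2 : ℝ) ^ (22 * e) * (((20 * a : ℕ) : ℝ) * 2 ^ (4 * u + 8 * e) * 2 ^ (4 * u + 33 * e))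
        ≤ 2 ^ (22 * e) * (2 ^ e * 2 ^ (4 * u + 8 * e) * 2 ^ (4 * u + 33 * e)) := by gcongr
      _ = 2 ^ (8 * u + 64 * e) := by
        rw [← pow_add, ← pow_add, ← pow_add]
        congr 1
        ring
  have h2 : Real.exp (AX * (((20 * a : ℕ) : ℝ) * H * W / S)) ≤ 3 := by
    calc _ ≤ Real.exp 1 := Real.exp_le_exp.mpr h1
      _ ≤ 3 := by linarith [Real.exp_one_lt_d9]
  have h3 : 2 ^ (22 * a) ≤ AX ^ t0 := by
    rw [hAX, ← pow_mul]
    exact pow_le_pow_right₀ (by norm_num) (by nlinarith)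
  have h4 : (2 : ℝ) ^ (22 * a) = 2 ^ (6 * a) * 2 ^ (16 * a) := by
    rw [← pow_add]
    congr 1
    ring
  have h5 : (2 : ℝ) ^ 16 ≤ 2 ^ (16 * a) := pow_le_pow_right₀ (by norm_num) (by omega)
  have h9 : 0 < AX ^ t0 := by
    rw [hAX]
    positivity
  rw [mul_div_assoc', div_lt_iff₀ h9]
  have h6 : (0 : ℝ) < 2 ^ (6 * a) := by positivity
  have h7 : (2 : ℝ) ^ (6 * a) * 4096 * Real.exp (AX * (((20 * a : ℕ) : ℝ) * H * W / S))
      ≤ 2 ^ (6 * a) * 4096 * 3 := by gcongr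
  have h8 : (2 : ℝ) ^ (6 * a) * 2 ^ 16 ≤ 2 ^ (6 * a) * 2 ^ (16 * a) := by gcongr
  rw [← h4] at h8
  nlinarith

/-- A term of `hY` for `m = q_i ^ 4`. -/
lemma tY_four {a e u u' κ : ℕ} (e300 : 300 ≤ e) (eu : 100 * e ≤ u) (ua : 100 * u ≤ a)
    (uu : 6 * u' ≤ 7 * u) (uu' : u ≤ u')
    (h20 : 20 * a ≤ 2 ^ e) (Q m Tc S : ℝ)
    (c : ℕ) (hc : c + 2 = 2 * u + 4 * u' + e) (hQ0 : 0 ≤ Q) (hQ : Q ≤ 2 ^ (a + 1))
    (hm : 2 ^ (4 * (a + u)) ≤ m) (hm' : m ≤ 2 ^ (12 * a + 4)) (hT0 : 0 ≤ Tc) (hT : Tc ≤ 2 ^ c)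
    (hS : S = 2 ^ (8 * u + 64 * e)) (huk : 3 * a ≤ u * κ) :
    m * (Real.exp (2 ^ u * (((20 * a : ℕ) : ℝ) * (Tc * (Q ^ 2 / m + 1 / S))))
      / (2 ^ u) ^ (8 * κ)) ≤ 1 / 2 ^ (2 * a) := by
  have hmpos : 0 < m := lt_of_lt_of_le (by positivity) hm
  have h20' : ((20 * a : ℕ) : ℝ) ≤ 2 ^ e := by exact_mod_cast h20
  have b1 : 2 ^ u * (2 ^ e * (Tc * (Q ^ 2 / m))) ≤ 1 / 2 := by
    rw [mul_div_assoc', mul_div_assoc', mul_div_assoc', div_le_div_iff₀ hmpos (by norm_num)]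
    calc 2 ^ u * (2 ^ e * (Tc * Q ^ 2)) * 2 ≤ 2 ^ u * (2 ^ e * (2 ^ c * (2 ^ (a + 1)) ^ 2)) * 2 := by
          gcongr
      _ = 2 ^ (u + e + c + 2 * a + 3) := by
        rw [← pow_mul, ← pow_add, ← pow_add, ← pow_add, ← pow_succ]
        congr 1
        omega
      _ ≤ 2 ^ (4 * (a + u)) := pow_le_pow_right₀ (by norm_num) (by omega)
      _ ≤ 1 * m := by rw [one_mul]; exact hm
  have b2 : 2 ^ u * (2 ^ e * (Tc * (1 / S))) ≤ 1 / 2 := by
    rw [hS, mul_one_div, mul_div_assoc', mul_div_assoc', div_le_div_iff₀ (by positivity)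
      (by norm_num)]
    calc 2 ^ u * (2 ^ e * Tc) * 2 ≤ 2 ^ u * (2 ^ e * 2 ^ c) * 2 := by gcongr
      _ = 2 ^ (u + e + c + 1) := by
        rw [← pow_add, ← pow_add, ← pow_succ]
        congr 1
        omega
      _ ≤ 2 ^ (8 * u + 64 * e) := pow_le_pow_right₀ (by norm_num) (by omega)
      _ = 1 * _ := (one_mul _).symm
  have b3 : 2 ^ u * (((20 * a : ℕ) : ℝ) * (Tc * (Q ^ 2 / m + 1 / S))) ≤ 1 := by
    have hSpos : 0 < S := by rw [hS]; positivity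
    calc 2 ^ u * (((20 * a : ℕ) : ℝ) * (Tc * (Q ^ 2 / m + 1 / S)))
        ≤ 2 ^ u * (2 ^ e * (Tc * (Q ^ 2 / m + 1 / S))) := by gcongr
      _ = 2 ^ u * (2 ^ e * (Tc * (Q ^ 2 / m))) + 2 ^ u * (2 ^ e * (Tc * (1 / S))) := by ring
      _ ≤ 1 / 2 + 1 / 2 := add_le_add b1 b2
      _ = 1 := by norm_num
  have b4 : Real.exp (2 ^ u * (((20 * a : ℕ) : ℝ) * (Tc * (Q ^ 2 / m + 1 / S)))) ≤ 2 ^ 2 := by
    calc _ ≤ Real.exp 1 := Real.exp_le_exp.mpr b3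
      _ ≤ 2 ^ 2 := by linarith [Real.exp_one_lt_d9]
  calc m * (Real.exp (2 ^ u * (((20 * a : ℕ) : ℝ) * (Tc * (Q ^ 2 / m + 1 / S))))
      / (2 ^ u) ^ (8 * κ)) ≤ 2 ^ (12 * a + 4) * (2 ^ 2 / (2 ^ u) ^ (8 * κ)) := by gcongr
    _ ≤ 1 / 2 ^ (2 * a) := by
      rw [mul_div_assoc', div_le_div_iff₀ (by positivity) (by positivity), one_mul, ← pow_add,
        ← pow_add, ← pow_mul]
      apply pow_le_pow_right₀ (by norm_num)
      have : u * (8 * κ) = 8 * (u * κ) := by ring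
      omega

section
variable {a u e t κ f : ℕ → ℕ}

lemma Tow.strictMono (h : Tow a u e t κ f) : StrictMono a := by
  apply strictMono_nat_of_lt_succ
  intro k
  have h1 := h.step k
  have h2 := h.eu k
  have h3 := h.e300 k
  omega

lemma Tow.mono_u (h : Tow a u e t κ f) : Monotone u := monotone_nat_of_le_succ h.uu'

lemma Tow.mono_e (h : Tow a u e t κ f) : Monotone e := monotone_nat_of_le_succ h.ee'

lemma Tow.le_a (h : Tow a u e t κ f) (k : ℕ) : k ≤ a k := h.strictMono.le_apply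

lemma Tow.hk (h : Tow a u e t κ f) (k : ℕ) : 1 + 4096 * k ≤ 2 ^ (4 * e k) := by
  have h1 := h.le_a k
  have h2 := h.h20 k
  have h3 := h.e300 k
  have h4 : 2 ^ 13 ≤ 2 ^ e k := Nat.pow_le_pow_right (by norm_num) (by omega)
  have h5 : 2 ^ e k * 2 ^ e k ≤ 2 ^ (4 * e k) := by
    rw [← pow_add]
    exact Nat.pow_le_pow_right (by norm_num) (by omega)
  have h6 : 2 ^ 13 * k ≤ 2 ^ e k * 2 ^ e k := Nat.mul_le_mul h4 (by omega)
  rcases Nat.eq_zero_or_pos k with rfl | hk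
  · simpa using Nat.one_le_two_pow
  · omega

/-- The indices of the near moduli. -/
def nearT (a : ℕ → ℕ) (k : ℕ) : Finset ℕ :=
  (range (3 * a k + 1)).filter (fun i => k < i ∧ a i ≤ 3 * a k)

/-- The near moduli. -/
def modT (a : ℕ → ℕ) (k : ℕ) (q : ℕ → ℕ) : Finset ℕ :=
  (nearT a k).image (fun i => q i ^ 2) ∪ (nearT a k).image (fun i => q i ^ 4)

lemma mem_nearT (h : Tow a u e t κ f) {k i : ℕ} : i ∈ nearT a k ↔ k < i ∧ a i ≤ 3 * a k := by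
  unfold nearT
  rw [mem_filter, mem_range]
  constructor
  · exact fun h => h.2
  · intro h'
    exact ⟨by have := h.le_a i; omega, h'⟩

lemma card_nearT_le (a : ℕ → ℕ) (k : ℕ) : (nearT a k).card ≤ 3 * a k := by
  unfold nearT
  have h : (range (3 * a k + 1)).filter (fun i => k < i ∧ a i ≤ 3 * a k) ⊆
      (range (3 * a k + 1)).erase 0 := by
    intro i hi
    rw [mem_filter] at hi
    rw [mem_erase]
    exact ⟨by omega, hi.1⟩
  refine (card_le_card h).trans ?_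
  rw [card_erase_of_mem (mem_range.mpr (Nat.succ_pos _)), card_range]
  omega

lemma sum_modT_le (k : ℕ) (q : ℕ → ℕ) (g : ℕ → ℝ) (hg : ∀ m, 0 ≤ g m) (B : ℝ)
    (h2 : ∀ i ∈ nearT a k, g (q i ^ 2) ≤ B) (h4 : ∀ i ∈ nearT a k, g (q i ^ 4) ≤ B) :
    ∑ m ∈ modT a k q, g m ≤ 2 * ((nearT a k).card * B) := by
  classical
  unfold modT
  have h1 : ∑ m ∈ (nearT a k).image (fun i => q i ^ 2) ∪ (nearT a k).image (fun i => q i ^ 4), g m
      ≤ ∑ m ∈ (nearT a k).image (fun i => q i ^ 2), g m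
        + ∑ m ∈ (nearT a k).image (fun i => q i ^ 4), g m := by
    rw [← sum_union_inter]
    exact le_add_of_nonneg_right (sum_nonneg (fun m _ => hg m))
  have h3 : ∀ c : ℕ → ℕ, (∀ i ∈ nearT a k, g (c i) ≤ B) →
      ∑ m ∈ (nearT a k).image c, g m ≤ (nearT a k).card * B := by
    intro c hc
    refine (sum_image_le_of_nonneg ?_).trans ?_
    · exact fun m _ => hg m
    · calc ∑ i ∈ nearT a k, g (c i) ≤ ∑ i ∈ nearT a k, B := sum_le_sum hc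
        _ = _ := by rw [sum_const, nsmul_eq_mul]
  have h5 := h3 _ h2
  have h6 := h3 _ h4
  linarith

end

end Pool.Agent.Helper53.WR
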