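import Pool.Agent.Helper3.ThinCover

/-!
# Project WR: definitions

World recursion for thin bases of order two. `World Γ T S τ σ` is the set of all
`und u (z + τ u) + off q ε + q ^ 4 * (S + σ (u, z) + t)`, `u, z ∈ Γ`, `ε` a label, `t ∈ T`.
-/

set_option autoImplicit false

namespace Pool.Agent.Helper53.WR

open Finset
open Pool.Agent.Helper3.Thin (dig und off Lab GoodSet)

/-- Number of ordered representations of `n` as a sum of two elements of the finite set `A`. -/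
def repF (A : Finset ℕ) (n : ℕ) : ℕ := ((A ×ˢ A).filter (fun p => p.1 + p.2 = n)).card

/-- The element with index `p = (u, z)`, label `ε` and top part `t`. -/
def elt {q : ℕ} (S : ℕ) (τ : ZMod q × ZMod q → ZMod q × ZMod q)
    (σ : (ZMod q × ZMod q) × (ZMod q × ZMod q) → ℕ)
    (p : (ZMod q × ZMod q) × (ZMod q × ZMod q)) (ε : Lab) (t : ℕ) : ℕ :=
  und p.1 (p.2 + τ p.1) + off q ε + q ^ 4 * (S + σ p + t)

/-- All the index triples `((p, ε), t)`. -/
def Ind {q : ℕ} (Γ : Finset (ZMod q × ZMod q)) (T : Finset ℕ) :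
    Finset ((((ZMod q × ZMod q) × (ZMod q × ZMod q)) × Lab) × ℕ) :=
  ((Γ ×ˢ Γ) ×ˢ (univ : Finset Lab)) ×ˢ T

/-- The world with data `Γ, T, S, τ, σ`. -/
def World {q : ℕ} (Γ : Finset (ZMod q × ZMod q)) (T : Finset ℕ) (S : ℕ)
    (τ : ZMod q × ZMod q → ZMod q × ZMod q)
    (σ : (ZMod q × ZMod q) × (ZMod q × ZMod q) → ℕ) : Finset ℕ :=
  (Ind Γ T).image (fun x => elt S τ σ x.1.1 x.1.2 x.2)

/-- Number of ordered representations, for arbitrary sets. -/
noncomputable def rep (A : Set ℕ) (n : ℕ) : ℕ :=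
  ({p : ℕ × ℕ | p.1 ∈ A ∧ p.2 ∈ A ∧ p.1 + p.2 = n} : Set (ℕ × ℕ)).ncard

/-- The dyadic block `[2 ^ j, 2 ^ (j + 1))` is contained in `A + A`. -/
def CovBlock (A : Set ℕ) (j : ℕ) : Prop :=
  ∀ n : ℕ, 2 ^ j ≤ n → n < 2 ^ (j + 1) → ∃ a ∈ A, ∃ b ∈ A, a + b = n

open Classical in
/-- Number of dyadic blocks below `2 ^ J` that are not contained in `A + A`. -/
noncomputable def badCount (A : Set ℕ) (J : ℕ) : ℕ :=
  ((range J).filter (fun j => ¬ CovBlock A j)).card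

/-- Exponents `β` for the number of representations and `γ` for the exceptional blocks. -/
def HasExp (β γ : ℝ) : Prop :=
  ∃ A : Set ℕ, (∃ C : ℝ, ∀ l : ℕ, 1 ≤ l → ∀ n : ℕ, n < 2 ^ l → (rep A n : ℝ) ≤ C * (l : ℝ) ^ β) ∧
    (∃ C : ℝ, ∀ J : ℕ, 1 ≤ J → (badCount A J : ℝ) ≤ C * (J : ℝ) ^ γ)

end Pool.Agent.Helper53.WR
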