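import Pool.Agent.Helper53.WR.Range
import Pool.Agent.Helper67.WR.B1
import Pool.Agent.Helper96.WR.B2
import Pool.Agent.Helper42.WR.WindowBound
import Pool.Agent.Helper23.WR.C1
import Pool.Agent.Helper71.WR.C2
import Pool.Agent.Helper7.WR.C3
import Pool.Agent.Helper12.WR.C4

set_option autoImplicit false

namespace Pool.Agent.Helper53.WR

open Finset
open Pool.Agent.Helper3.Thin (dig und off Lab GoodSet exists_goodSet)

/-- The world lemma with numerical hypotheses. -/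
theorem world_exists {q : ℕ} [Fact q.Prime] (hq : 16 < q) (T O : Finset ℕ)
    (S Y H D W f x N t0 : ℕ) (hS : 0 < S) (Mod : Finset ℕ)
    (hMod : ∀ m ∈ Mod, 0 < m ∧ Nat.Coprime q m) (hTm : ∀ m ∈ Mod, ∀ t ∈ T, t < m)
    (hTY : ∀ t ∈ T, t < Y) (hf : ∀ n, repF T n ≤ f)
    (hW : 2 * S * f ≤ W ^ 2)
    (hO : ∀ r, (O.filter (fun o => o % q ^ 2 = r)).card ≤ H)
    (hD : ∀ r, (O.filter (fun o => o % q ^ 4 = r)).card ≤ D)
    (hx : ((q : ℝ) ^ 4 + ∑ m ∈ Mod, (m : ℝ)) * 2 ^ 13 < 2 ^ x)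
    (AX : ℝ) (hAX : 1 ≤ AX)
    (hX : (N : ℝ) * 4096 * (Real.exp (AX * ((x : ℝ) * H * W / S)) / AX ^ t0) < 1 / 2)
    (AM : ℕ → ℝ) (hAM : ∀ m ∈ Mod, 1 ≤ AM m) (y : ℕ → ℕ)
    (hY : ∑ m ∈ Mod, (m : ℝ) * (Real.exp (AM m *
      ((x : ℝ) * (T.card * ((q : ℝ) ^ 2 / m + 1 / S)))) / AM m ^ y m) < 1 / 2) :
    ∃ A : Finset ℕ, (∀ b ∈ A, q ^ 4 * S ≤ b ∧ b < q ^ 4 * (514 + 2 * S + Y)) ∧
      (∀ n, repF A n ≤ 4096 ^ 2 * 2592 * f) ∧
      (∀ n, 4 + 4 * S ≤ n / q ^ 4 →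
        (∀ m : ℕ, n / q ^ 4 ≤ m + 4 + 4 * S → m ≤ n / q ^ 4 → ∃ t ∈ T, ∃ t' ∈ T, t + t' = m) →
        ∃ a ∈ A, ∃ b ∈ A, a + b = n) ∧
      (∀ m ∈ Mod, ∀ r, (A.filter (fun b => b % m = r)).card ≤ 4096 * y m) ∧
      (∀ n < N, ((A ×ˢ O).filter (fun z => z.1 + z.2 = n)).card ≤ 4096 * (t0 * D)) := by
  classical
  obtain ⟨Γ, hΓ⟩ := exists_goodSet q hq
  have hcard : Γ.card ≤ 3 * q := by
    have := hΓ.card_le
    rwa [ZMod.card] at this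
  obtain ⟨τ, hτ1, hτ2⟩ := Helper67.WR.tau_select Γ hcard T O S hS H x Mod hMod hO hx
  have hwin : ∀ a : ℕ, (T.filter (fun t => a ≤ t ∧ t < a + S)).card ≤ W := by
    intro a
    have h1 := Helper42.WR.window_bound T f S hf a
    by_contra hc
    push Not at hc
    have h2 : W ^ 2 < (T.filter (fun t => a ≤ t ∧ t < a + S)).card ^ 2 :=
      Nat.pow_lt_pow_left hc (by norm_num)
    omega
  obtain ⟨σ, hσ, hσ1, hσ2⟩ := Helper96.WR.sigma_select Γ T O S hS x H W N t0 Mod (fun m hm => (hMod m hm).1) τ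
    hwin hτ1 hτ2 AX hAX hX AM hAM y hY
  refine ⟨World Γ T S τ σ, world_range Γ T S Y τ σ hσ hTY, ?_, ?_, ?_, ?_⟩
  · exact fun n => Helper23.WR.world_self hΓ T S f τ σ hf n
  · exact fun n h1 h2 => Helper71.WR.world_cover hΓ T S τ σ hσ n h1 h2
  · intro m hm r
    exact Helper7.WR.world_residue Γ T S m (y m) (hMod m hm).1 (hMod m hm).2 (hTm m hm) τ σ
      (fun r => (hσ2 m hm r).le) r
  · intro n hn
    exact Helper12.WR.world_cross Γ T O S D t0 n τ σ hD (fun ε => (hσ1 n hn ε).le)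

end Pool.Agent.Helper53.WR
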