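import Pool.Agent.Helper53.WR.Tower
import Pool.Agent.Helper48.WR.Finite
import Pool.Agent.Helper63.WR2.Inf

/-!
# WR2: the final theorem
-/

set_option autoImplicit false

namespace Pool.Agent.Helper53.WR

open Finset Filter

theorem infinite_thm (ρ : ℝ) (hρ0 : 0 ≤ ρ) (hρ1 : ρ < 1) :
    ∃ A : Set ℕ, (∃ C : ℝ, ∀ l : ℕ, 2 ≤ l → ∀ n : ℕ, n < 2 ^ l →
      (rep A n : ℝ) ≤ C * (l : ℝ) ^ ρ * Real.exp (C * √(Real.log l))) ∧
      ∀ᶠ J : ℕ in atTop, (badCount A J : ℝ) ≤ (J : ℝ) ^ (1 - ρ) * Real.exp (-√(Real.log J)) :=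
  Helper63.WR2.infinite_of (fun _ _ _ _ _ _ h T h1 h2 => tower h T h1 h2) Helper48.WR.finite_thm
    ρ hρ0 hρ1

theorem almost_all_scales2 (ρ : ℝ) (hρ0 : 0 ≤ ρ) (hρ1 : ρ < 1) :
    ∃ A : Set ℕ, (∃ C : ℝ, ∀ᶠ n : ℕ in atTop,
      (rep A n : ℝ) ≤ (Real.log n) ^ ρ * Real.exp (C * √(Real.log (Real.log n)))) ∧
      ∀ᶠ J : ℕ in atTop, (badCount A J : ℝ) ≤ (J : ℝ) ^ (1 - ρ) * Real.exp (-√(Real.log J)) := by
  obtain ⟨A, ⟨C, hC⟩, hB⟩ := infinite_thm ρ hρ0 hρ1
  refine ⟨A, ⟨3 * (|C| + 1), ?_⟩, hB⟩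
  have hlog : Tendsto (fun n : ℕ => Real.log n) atTop atTop :=
    Real.tendsto_log_atTop.comp tendsto_natCast_atTop_atTop
  have hll : Tendsto (fun n : ℕ => Real.log (Real.log n)) atTop atTop :=
    Real.tendsto_log_atTop.comp hlog
  filter_upwards [eventually_ge_atTop 4, hlog.eventually_ge_atTop 10,
    hll.eventually_ge_atTop (4 + |C| ^ 2 + (Real.log (|C| + 1)) ^ 2)] with n hn hln hlln
  have hn0 : n ≠ 0 := by omega
  have hnpos : (0 : ℝ) < n := by positivity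
  set l := Nat.log 2 n + 1 with hl
  have h1 : n < 2 ^ l := Nat.lt_pow_succ_log_self (by norm_num) n
  have h2 : 2 ≤ l := by
    have : 2 ≤ Nat.log 2 n := Nat.le_log_of_pow_le (by norm_num) (by omega)
    omega
  have h3 : (l : ℝ) ≤ 3 * Real.log n := by
    have h4 : 2 ^ Nat.log 2 n ≤ n := Nat.pow_log_le_self 2 hn0
    have h5 : ((Nat.log 2 n : ℕ) : ℝ) * Real.log 2 ≤ Real.log n := by
      rw [← Real.log_pow]
      apply Real.log_le_log (by positivity)
      exact_mod_cast h4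
    have h6 : (0.69 : ℝ) < Real.log 2 := by linarith [Real.log_two_gt_d9]
    have h7 : (l : ℝ) = (Nat.log 2 n : ℕ) + 1 := by rw [hl]; push_cast; rfl
    have h8 : (0 : ℝ) ≤ (Nat.log 2 n : ℕ) := Nat.cast_nonneg _
    nlinarith
  have hlpos : (0 : ℝ) < l := by
    have : 0 < l := by omega
    exact_mod_cast this
  have hL : 0 < Real.log n := by linarith
  have hLL : 0 < Real.log (Real.log n) := by nlinarith [sq_nonneg |C|, sq_nonneg (Real.log (|C| + 1))]
  set x := Real.log (Real.log n) with hx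
  have hxs : 2 ≤ √x := by
    apply Real.le_sqrt_of_sq_le
    nlinarith [sq_nonneg |C|, sq_nonneg (Real.log (|C| + 1))]
  have h9 : Real.log l ≤ x + 2 := by
    calc Real.log l ≤ Real.log (3 * Real.log n) := Real.log_le_log hlpos h3
      _ = Real.log 3 + x := Real.log_mul (by norm_num) hL.ne'
      _ ≤ x + 2 := by
        have : Real.log 3 ≤ 3 - 1 := Real.log_le_sub_one_of_pos (by norm_num)
        linarith
  have h10 : √(Real.log l) ≤ 2 * √x := by
    rw [show (2 : ℝ) * √x = √(4 * x) by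
      rw [Real.sqrt_mul (by norm_num) x, show (4 : ℝ) = 2 ^ 2 by norm_num,
        Real.sqrt_sq (by norm_num)]]
    apply Real.sqrt_le_sqrt
    nlinarith [sq_nonneg |C|, sq_nonneg (Real.log (|C| + 1))]
  have h11 : (l : ℝ) ^ ρ ≤ 3 * (Real.log n) ^ ρ := by
    calc (l : ℝ) ^ ρ ≤ (3 * Real.log n) ^ ρ := Real.rpow_le_rpow hlpos.le h3 hρ0
      _ = 3 ^ ρ * (Real.log n) ^ ρ := Real.mul_rpow (by norm_num) hL.le
      _ ≤ 3 * (Real.log n) ^ ρ := by
        have : (3 : ℝ) ^ ρ ≤ 3 ^ (1 : ℝ) := Real.rpow_le_rpow_of_exponent_le (by norm_num) hρ1.le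
        rw [Real.rpow_one] at this
        gcongr
  have hC0 : 0 ≤ |C| := abs_nonneg C
  calc (rep A n : ℝ) ≤ C * (l : ℝ) ^ ρ * Real.exp (C * √(Real.log l)) := hC l h2 n h1
    _ ≤ (|C| + 1) * (l : ℝ) ^ ρ * Real.exp ((|C| + 1) * √(Real.log l)) := by
      have hle : C ≤ |C| + 1 := by linarith [le_abs_self C]
      gcongr
    _ ≤ (|C| + 1) * (3 * (Real.log n) ^ ρ) * Real.exp ((|C| + 1) * (2 * √x)) := by
      gcongr
    _ = (Real.log n) ^ ρ * (3 * (|C| + 1) * Real.exp (2 * (|C| + 1) * √x)) := by ring_nf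
    _ ≤ (Real.log n) ^ ρ * Real.exp (3 * (|C| + 1) * √x) := by
      gcongr
      have e3 : (3 : ℝ) ≤ Real.exp (√x) := by
        have := Real.add_one_le_exp (√x)
        linarith
      have e4 : |C| + 1 ≤ Real.exp (|C| * √x) := by
        have h12 := Real.add_one_le_exp (|C| * √x)
        have h13 : |C| * 1 ≤ |C| * √x := mul_le_mul_of_nonneg_left (by linarith) hC0
        linarith
      calc 3 * (|C| + 1) * Real.exp (2 * (|C| + 1) * √x)
          ≤ Real.exp (√x) * Real.exp (|C| * √x) * Real.exp (2 * (|C| + 1) * √x) := by gcongr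
        _ = Real.exp (3 * (|C| + 1) * √x) := by
          rw [← Real.exp_add, ← Real.exp_add]
          congr 1
          ring

end Pool.Agent.Helper53.WR
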