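import Pool.Agent.Helper53.WR.Exists
import Pool.Agent.Helper53.WR.Numeric

/-!
# One world with all parameters fixed
-/

set_option autoImplicit false

namespace Pool.Agent.Helper53.WR

open Finset

/-- The exponential parameters for the near moduli. -/
noncomputable def AMf (M k : ℕ) (q : ℕ → ℕ) : ℕ → ℝ :=
  Function.extend (fun i => q i ^ 2) (fun _ => (2 : ℝ)) (fun _ => 2 ^ uP M k)

/-- The bounds for the near moduli. -/
noncomputable def yf (M G k : ℕ) (q : ℕ → ℕ) : ℕ → ℕ :=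
  Function.extend (fun i => q i ^ 2) (fun i => 2 ^ (4 * uP M i + 4 * i ^ G)) (fun _ => 8 * k)

section
variable {M : ℕ} {q : ℕ → ℕ}

lemma q_strictMono (hM : 1 ≤ M) (hq : ∀ i, (q i).Prime ∧ 2 ^ (i ^ M) < q i ∧ q i ≤ 2 ^ (i ^ M + 1)) :
    StrictMono q := by
  apply strictMono_nat_of_lt_succ
  intro i
  calc q i ≤ 2 ^ (i ^ M + 1) := (hq i).2.2
    _ ≤ 2 ^ ((i + 1) ^ M) := Nat.pow_le_pow_right (by norm_num)
      (Nat.pow_lt_pow_left (Nat.lt_succ_self i) (by omega))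
    _ < q (i + 1) := (hq (i + 1)).2.1

lemma sq_injective (hM : 1 ≤ M)
    (hq : ∀ i, (q i).Prime ∧ 2 ^ (i ^ M) < q i ∧ q i ≤ 2 ^ (i ^ M + 1)) :
    Function.Injective (fun i => q i ^ 2) := by
  intro i j h
  exact (q_strictMono hM hq).injective (Nat.pow_left_injective (by norm_num) h)

lemma sq_ne_four (hq : ∀ i, (q i).Prime ∧ 2 ^ (i ^ M) < q i ∧ q i ≤ 2 ^ (i ^ M + 1)) (i : ℕ) :
    ¬ ∃ j, (fun i => q i ^ 2) j = q i ^ 4 := by
  rintro ⟨j, hj⟩
  have h1 : q j ^ 2 = (q i ^ 2) ^ 2 := by rw [← pow_mul]; exact hj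
  have h2 : q j = q i ^ 2 := Nat.pow_left_injective (by norm_num) h1
  exact (Nat.Prime.not_prime_pow (le_refl 2)) (h2 ▸ (hq j).1)

end

theorem world_k {M G : ℕ} {f : ℕ → ℕ} {k : ℕ} (h : Num M G f k) (q : ℕ → ℕ)
    (hq : ∀ i, (q i).Prime ∧ 2 ^ (i ^ M) < q i ∧ q i ≤ 2 ^ (i ^ M + 1))
    (T O : Finset ℕ) (hT : ∀ t ∈ T, t < 2 ^ laP M k) (hf : ∀ n, repF T n ≤ f k)
    (hO : ∀ o ∈ O, o < 2 ^ (4 * k ^ M + 8 * uP M k))
    (hH : ∀ r, (O.filter (fun o => o % (q k) ^ 2 = r)).card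
      ≤ 1 + k * (4096 * 2 ^ (4 * uP M k + 4 * k ^ G)))
    (hD : ∀ r, (O.filter (fun o => o % (q k) ^ 4 = r)).card ≤ 1 + k * (4096 * (8 * k))) :
    ∃ A : Finset ℕ,
      (∀ b ∈ A, 2 ^ (4 * k ^ M + thP M G k) ≤ b ∧ b < 2 ^ (4 * (k + 1) ^ M + 8 * uP M (k + 1))) ∧
      (∀ n, repF A n ≤ 4096 ^ 2 * 2592 * f k) ∧
      (∀ j, 4 * k ^ M + thP M G k + 8 ≤ j → j + 1 ≤ 4 * k ^ M + laP M k →
        (∀ i, i ≤ 5 → CovBlock (T : Set ℕ) (j - 4 * k ^ M - i)) → CovBlock (A : Set ℕ) j) ∧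
      (∀ i, k < i → i ^ M ≤ 3 * k ^ M → ∀ r,
        (A.filter (fun b => b % (q i) ^ 2 = r)).card ≤ 4096 * 2 ^ (4 * uP M i + 4 * i ^ G)) ∧
      (∀ i, k < i → i ^ M ≤ 3 * k ^ M → ∀ r,
        (A.filter (fun b => b % (q i) ^ 4 = r)).card ≤ 4096 * (8 * k)) ∧
      (∀ n, ((A ×ˢ O).filter (fun z => z.1 + z.2 = n)).card
        ≤ 4096 * (k ^ (M - G) * (2 ^ 15 * k ^ 2 + 1))) := by
  classical
  have hL := h.lin
  have hla := laP_add (M := M) (k := k) (by have := h.hM; omega)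
  have hM1 : 1 ≤ M := by have := h.hM; omega
  obtain ⟨hM, hG, hGM, -, hkM, hfe, h20⟩ := h
  have hL' := hL
  obtain ⟨k300, ke, eu, ua, uu, uu', ud, du⟩ := hL
  have hadd : (k + 1) ^ M = k ^ M + ((k + 1) ^ M - k ^ M) := by
    have : k ^ M ≤ (k + 1) ^ M := Nat.pow_le_pow_left (Nat.le_succ k) M
    omega
  set a := k ^ M with ha
  set e := k ^ G with he
  set u := uP M k with hu
  set u' := uP M (k + 1) with hu'
  set d := (k + 1) ^ M - a with hd
  have hth : thP M G k = 8 * u + 64 * e := rfl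
  haveI : Fact (q k).Prime := ⟨(hq k).1⟩
  have hqk1 : 2 ^ a < q k := (hq k).2.1
  have hqk2 : q k ≤ 2 ^ (a + 1) := (hq k).2.2
  have hq16 : 16 < q k := by
    have : 2 ^ 4 ≤ 2 ^ a := Nat.pow_le_pow_right (by norm_num) (by omega)
    omega
  -- the near moduli
  have hnear : ∀ i ∈ nearP M k, 2 ^ (a + d) < q i ∧ q i ≤ 2 ^ (3 * a + 1) ∧ k < i := by
    intro i hi
    rw [mem_nearP hM1] at hi
    refine ⟨lt_of_le_of_lt ?_ (hq i).2.1, (hq i).2.2.trans ?_, hi.1⟩
    · refine Nat.pow_le_pow_right (by norm_num) ?_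
      rw [← hadd]
      exact Nat.pow_le_pow_left hi.1 M
    · exact Nat.pow_le_pow_right (by norm_num) (by omega)
  have hyy : ∀ i ∈ nearP M k, 4 * u' + 4 * e ≤ 4 * uP M i + 4 * i ^ G := by
    intro i hi
    rw [mem_nearP hM1] at hi
    have h1 : u' ≤ uP M i := Nat.mul_le_mul_left _ (Nat.pow_le_pow_left hi.1 _)
    have h2 : e ≤ i ^ G := Nat.pow_le_pow_left hi.1.le _
    omega
  have hcard := card_nearP_le M k (by omega)
  rw [← ha] at hcard
  have hcardR : ((nearP M k).card : ℝ) ≤ 3 * (a : ℝ) := by exact_mod_cast hcard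
  have hc2 : (2 * d + 4 * u' + e - 2) + 2 = 2 * d + 4 * u' + e := by omega
  have hTc : T.card ≤ 2 ^ (2 * d + 4 * u' + e - 2) :=
    card_le_pow T (laP M k) (f k) _ hT hf e hfe (by omega)
  have hTcR : ((T.card : ℕ) : ℝ) ≤ 2 ^ (2 * d + 4 * u' + e - 2) := by exact_mod_cast hTc
  have hQR : ((q k : ℕ) : ℝ) ≤ 2 ^ (a + 1) := by exact_mod_cast hqk2
  have huk : 3 * a ≤ u * k := by
    have : u * k = M * a := by
      rw [hu, ha]
      unfold uP
      rw [mul_assoc, ← pow_succ, Nat.sub_add_cancel hM1]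
    rw [this]
    exact Nat.mul_le_mul_right _ hM
  have hpa : ∀ c : ℕ, c ≤ a → (c : ℝ) ≤ 2 ^ a := by
    intro c hc
    have h1 : c ≤ 2 ^ a := hc.trans Nat.lt_two_pow_self.le
    exact_mod_cast h1
  have ha1000 : 1000 ≤ a := by omega
  have hx : ((q k : ℝ) ^ 4 + ∑ m ∈ modP M k q, (m : ℝ)) * 2 ^ 13 < 2 ^ (20 * a) := by
    have h1 : ∑ m ∈ modP M k q, (m : ℝ) ≤ 2 * ((nearP M k).card * 2 ^ (12 * a + 4)) := by
      apply sum_modP_le M k q (fun m => (m : ℝ)) (fun m => Nat.cast_nonneg m)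
      · intro i hi
        push_cast
        have h2 : (q i : ℝ) ≤ 2 ^ (3 * a + 1) := by exact_mod_cast (hnear i hi).2.1
        calc (q i : ℝ) ^ 2 ≤ (2 ^ (3 * a + 1)) ^ 2 := by gcongr
          _ = 2 ^ ((3 * a + 1) * 2) := (pow_mul _ _ _).symm
          _ ≤ 2 ^ (12 * a + 4) := pow_le_pow_right₀ (by norm_num) (by omega)
      · intro i hi
        push_cast
        have h2 : (q i : ℝ) ≤ 2 ^ (3 * a + 1) := by exact_mod_cast (hnear i hi).2.1
        calc (q i : ℝ) ^ 4 ≤ (2 ^ (3 * a + 1)) ^ 4 := by gcongr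
          _ = 2 ^ ((3 * a + 1) * 4) := (pow_mul _ _ _).symm
          _ ≤ 2 ^ (12 * a + 4) := pow_le_pow_right₀ (by norm_num) (by omega)
    have h3 : (q k : ℝ) ^ 4 ≤ 2 ^ (12 * a + 4) := by
      calc (q k : ℝ) ^ 4 ≤ (2 ^ (a + 1)) ^ 4 := by gcongr
        _ = 2 ^ ((a + 1) * 4) := (pow_mul _ _ _).symm
        _ ≤ 2 ^ (12 * a + 4) := pow_le_pow_right₀ (by norm_num) (by omega)
    have h4 : 2 * (((nearP M k).card : ℝ) * 2 ^ (12 * a + 4)) ≤ 2 * (3 * 2 ^ a * 2 ^ (12 * a + 4)) := by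
      have := hpa a le_rfl
      gcongr
      linarith
    have h5 : (2 : ℝ) ^ (20 * a) = 2 ^ (12 * a + 4) * 2 ^ a * 2 ^ (7 * a - 4) := by
      rw [← pow_add, ← pow_add]
      congr 1
      omega
    have h6 : (2 : ℝ) ^ 20 ≤ 2 ^ (7 * a - 4) := pow_le_pow_right₀ (by norm_num) (by omega)
    have h7 : (1 : ℝ) ≤ 2 ^ a := one_le_pow₀ (by norm_num)
    have h8 : (0 : ℝ) < 2 ^ (12 * a + 4) := by positivity
    calc ((q k : ℝ) ^ 4 + ∑ m ∈ modP M k q, (m : ℝ)) * 2 ^ 13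
        ≤ (2 ^ (12 * a + 4) + 2 * (3 * 2 ^ a * 2 ^ (12 * a + 4))) * 2 ^ 13 := by gcongr; linarith
      _ ≤ (7 * (2 ^ (12 * a + 4) * 2 ^ a)) * 2 ^ 13 := by
        gcongr
        nlinarith
      _ < 2 ^ (12 * a + 4) * 2 ^ a * 2 ^ (7 * a - 4) := by
        have : (0 : ℝ) < 2 ^ (12 * a + 4) * 2 ^ a := by positivity
        nlinarith
      _ = _ := h5.symm
  have hX := hX_bound a e u (22 * a) h20 rfl (by omega) (2 ^ (8 * u + 64 * e)) rfl
    (2 ^ (4 * u + 8 * e)) (2 ^ (4 * u + 33 * e)) rfl rfl (2 ^ (22 * e)) (k ^ (M - G)) rfl (by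
      have : k ^ G * k ^ (M - G) = k ^ M := by
        rw [← pow_add]
        congr 1
        omega
      rw [mul_assoc, he, this, ha])
  have hterm : ∀ i ∈ nearP M k, (1 : ℝ) / 2 ^ (2 * a) ≤ 1 / 2 ^ (2 * a) := fun _ _ => le_rfl
  have hY : ∑ m ∈ modP M k q, (m : ℝ) * (Real.exp (AMf M k q m *
      (((20 * a : ℕ) : ℝ) * (T.card * ((q k : ℝ) ^ 2 / m + 1 / ((2 ^ thP M G k : ℕ) : ℝ)))))
        / AMf M k q m ^ yf M G k q m) < 1 / 2 := by
    have hAMpos : ∀ m, 0 < AMf M k q m := by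
      intro m
      unfold AMf
      by_cases hm : ∃ i, (fun i => q i ^ 2) i = m
      · obtain ⟨i, rfl⟩ := hm
        rw [(sq_injective hM1 hq).extend_apply]
        norm_num
      · rw [Function.extend_apply' _ _ _ hm]
        positivity
    have h1 := sum_modP_le M k q (fun m => (m : ℝ) * (Real.exp (AMf M k q m *
      (((20 * a : ℕ) : ℝ) * (T.card * ((q k : ℝ) ^ 2 / m + 1 / ((2 ^ thP M G k : ℕ) : ℝ)))))
        / AMf M k q m ^ yf M G k q m)) (fun m => by
          have := hAMpos m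
          positivity) (1 / 2 ^ (2 * a)) ?_ ?_
    · refine h1.trans_lt ?_
      have h2 : (2 : ℝ) ^ (2 * a) = 2 ^ a * 2 ^ a := by rw [← pow_add]; congr 1; ring
      have h3 : 2 * (((nearP M k).card : ℝ) * (1 / 2 ^ (2 * a))) ≤ 2 * (3 * 2 ^ a * (1 / 2 ^ (2 * a))) := by
        have := hpa a le_rfl
        gcongr
        linarith
      have h4 : 2 * (3 * (2 : ℝ) ^ a * (1 / 2 ^ (2 * a))) = 6 / 2 ^ a := by
        rw [h2]
        field_simp
        norm_num
      have h5 : (2 : ℝ) ^ 4 ≤ 2 ^ a := pow_le_pow_right₀ (by norm_num) (by omega)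
      have h6 : 6 / (2 : ℝ) ^ a < 1 / 2 := by
        rw [div_lt_div_iff₀ (by positivity) (by norm_num)]
        linarith
      linarith
    · intro i hi
      have e1 : AMf M k q (q i ^ 2) = 2 := (sq_injective hM1 hq).extend_apply _ _ i
      have e2 : yf M G k q (q i ^ 2) = 2 ^ (4 * uP M i + 4 * i ^ G) :=
        (sq_injective hM1 hq).extend_apply _ _ i
      rw [e1, e2]
      obtain ⟨g1, g2, g3⟩ := hnear i hi
      have g1' : (2 : ℝ) ^ (a + d) ≤ (q i : ℝ) := by exact_mod_cast g1.le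
      have g2' : (q i : ℝ) ≤ 2 ^ (3 * a + 1) := by exact_mod_cast g2
      refine hY_sq hL' h20 (q k) _ T.card _ (2 * d + 4 * u' + e - 2) hc2 (Nat.cast_nonneg _) hQR ?_ ?_
        (Nat.cast_nonneg _) hTcR ?_ _ (hyy i hi)
      · push_cast
        calc (2 : ℝ) ^ (2 * (a + d)) = (2 ^ (a + d)) ^ 2 := by rw [← pow_mul]; congr 1; ring
          _ ≤ _ := by gcongr
      · push_cast
        calc (q i : ℝ) ^ 2 ≤ (2 ^ (3 * a + 1)) ^ 2 := by gcongr
          _ = _ := by rw [← pow_mul]; congr 1; ring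
      · rw [hth]
        push_cast
        rfl
    · intro i hi
      have e1 : AMf M k q (q i ^ 4) = 2 ^ u :=
        Function.extend_apply' _ _ _ (sq_ne_four hq i)
      have e2 : yf M G k q (q i ^ 4) = 8 * k :=
        Function.extend_apply' _ _ _ (sq_ne_four hq i)
      rw [e1, e2]
      obtain ⟨g1, g2, g3⟩ := hnear i hi
      have g1' : (2 : ℝ) ^ (a + d) ≤ (q i : ℝ) := by exact_mod_cast g1.le
      have g2' : (q i : ℝ) ≤ 2 ^ (3 * a + 1) := by exact_mod_cast g2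
      refine hY_four hL' h20 (q k) _ T.card _ (2 * d + 4 * u' + e - 2) hc2 (Nat.cast_nonneg _) hQR ?_ ?_
        (Nat.cast_nonneg _) hTcR ?_ huk
      · push_cast
        calc (2 : ℝ) ^ (4 * (a + d)) = (2 ^ (a + d)) ^ 4 := by rw [← pow_mul]; congr 1; ring
          _ ≤ _ := by gcongr
      · push_cast
        calc (q i : ℝ) ^ 4 ≤ (2 ^ (3 * a + 1)) ^ 4 := by gcongr
          _ = _ := by rw [← pow_mul]; congr 1; ring
      · rw [hth]
        push_cast
        rfl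
  have hAM : ∀ m ∈ modP M k q, 1 ≤ AMf M k q m := by
    intro m _
    unfold AMf
    by_cases hm : ∃ i, (fun i => q i ^ 2) i = m
    · obtain ⟨i, rfl⟩ := hm
      rw [(sq_injective hM1 hq).extend_apply]
      norm_num
    · rw [Function.extend_apply' _ _ _ hm]
      exact one_le_pow₀ (by norm_num)
  have hMod : ∀ m ∈ modP M k q, 0 < m ∧ Nat.Coprime (q k) m := by
    intro m hm
    unfold modP at hm
    rw [mem_union, mem_image, mem_image] at hm
    have key : ∀ i ∈ nearP M k, 0 < q i ∧ Nat.Coprime (q k) (q i) := by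
      intro i hi
      refine ⟨(hq i).1.pos, ?_⟩
      rw [Nat.coprime_primes (hq k).1 (hq i).1]
      exact ((q_strictMono hM1 hq) (hnear i hi).2.2).ne
    rcases hm with ⟨i, hi, rfl⟩ | ⟨i, hi, rfl⟩
    · exact ⟨pow_pos (key i hi).1 _, (key i hi).2.pow_right _⟩
    · exact ⟨pow_pos (key i hi).1 _, (key i hi).2.pow_right _⟩
  have hTm : ∀ m ∈ modP M k q, ∀ t ∈ T, t < m := by
    intro m hm t ht
    unfold modP at hm
    rw [mem_union, mem_image, mem_image] at hm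
    have key : ∀ i ∈ nearP M k, 2 ^ laP M k < q i ^ 2 := by
      intro i hi
      calc 2 ^ laP M k ≤ 2 ^ ((a + d) * 2) := Nat.pow_le_pow_right (by norm_num) (by omega)
        _ = (2 ^ (a + d)) ^ 2 := pow_mul _ _ _
        _ < q i ^ 2 := Nat.pow_lt_pow_left (hnear i hi).1 (by norm_num)
    have h2 := hT t ht
    rcases hm with ⟨i, hi, rfl⟩ | ⟨i, hi, rfl⟩
    · exact h2.trans (key i hi)
    · exact h2.trans ((key i hi).trans_le (Nat.pow_le_pow_right (hq i).1.pos (by norm_num)))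
  have pW : 2 * 2 ^ thP M G k * f k ≤ (2 ^ (4 * u + 33 * e)) ^ 2 := by
    rw [hth]
    calc 2 * 2 ^ (8 * u + 64 * e) * f k ≤ 2 * 2 ^ (8 * u + 64 * e) * 2 ^ e :=
          Nat.mul_le_mul_left _ hfe
      _ = 2 ^ (8 * u + 64 * e + e + 1) := by rw [pow_succ, pow_add 2 (8 * u + 64 * e) e]; ring
      _ ≤ 2 ^ ((4 * u + 33 * e) * 2) := Nat.pow_le_pow_right (by norm_num) (by omega)
      _ = _ := pow_mul _ _ _
  have pH : ∀ r, (O.filter (fun o => o % (q k) ^ 2 = r)).card ≤ 2 ^ (4 * u + 8 * e) := by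
    intro r
    refine (hH r).trans ?_
    have g1 : k ≤ 2 ^ e := ke.trans Nat.lt_two_pow_self.le
    have g2 : 1 + 4096 * k ≤ 2 ^ (4 * e) := by
      calc 1 + 4096 * k ≤ 2 ^ 13 * 2 ^ e := by omega
        _ = 2 ^ (13 + e) := (pow_add _ _ _).symm
        _ ≤ _ := Nat.pow_le_pow_right (by norm_num) (by omega)
    have g3 : 1 ≤ 2 ^ (4 * u + 4 * e) := Nat.one_le_two_pow
    calc 1 + k * (4096 * 2 ^ (4 * u + 4 * e)) ≤ (1 + 4096 * k) * 2 ^ (4 * u + 4 * e) := by nlinarith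
      _ ≤ 2 ^ (4 * e) * 2 ^ (4 * u + 4 * e) := Nat.mul_le_mul_right _ g2
      _ = _ := by rw [← pow_add]; congr 1; ring
  have pD : ∀ r, (O.filter (fun o => o % (q k) ^ 4 = r)).card ≤ 2 ^ 15 * k ^ 2 + 1 := by
    intro r
    refine (hD r).trans (le_of_eq ?_)
    ring
  have pX : (((2 ^ (6 * a) : ℕ) : ℝ)) * 4096 * (Real.exp ((2 : ℝ) ^ (22 * e) * (((20 * a : ℕ) : ℝ)
      * ((2 ^ (4 * u + 8 * e) : ℕ) : ℝ) * ((2 ^ (4 * u + 33 * e) : ℕ) : ℝ)
        / ((2 ^ thP M G k : ℕ) : ℝ))) / ((2 : ℝ) ^ (22 * e)) ^ k ^ (M - G)) < 1 / 2 := by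
    rw [hth]
    push_cast at hX ⊢
    exact hX
  obtain ⟨A, hA1, hA2, hA3, hA4, hA5⟩ := world_exists (q := q k) hq16 T O (2 ^ thP M G k) (2 ^ laP M k)
    (2 ^ (4 * u + 8 * e)) (2 ^ 15 * k ^ 2 + 1) (2 ^ (4 * u + 33 * e)) (f k) (20 * a) (2 ^ (6 * a))
    (k ^ (M - G)) (by positivity) (modP M k q) hMod hTm hT hf pW pH pD hx (2 ^ (22 * e))
    (one_le_pow₀ (by norm_num)) pX (AMf M k q) hAM (yf M G k q) hY
  · refine ⟨A, ?_, hA2, ?_, ?_, ?_, ?_⟩
    · intro b hb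
      obtain ⟨h1, h2⟩ := hA1 b hb
      constructor
      · refine le_trans ?_ h1
        rw [pow_add, mul_comm 4 a, pow_mul]
        exact Nat.mul_le_mul_right _ (Nat.pow_le_pow_left hqk1.le 4)
      · refine h2.trans_le ?_
        have g1 : q k ^ 4 ≤ 2 ^ (4 * a + 4) := by
          calc q k ^ 4 ≤ (2 ^ (a + 1)) ^ 4 := Nat.pow_le_pow_left hqk2 4
            _ = _ := by rw [← pow_mul]; congr 1; ring
        have g2 : 514 + 2 * 2 ^ thP M G k + 2 ^ laP M k ≤ 2 ^ (laP M k + 1) := by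
          have g3 : 2 ^ 10 * 2 ^ thP M G k ≤ 2 ^ laP M k := by
            rw [← pow_add]
            exact Nat.pow_le_pow_right (by norm_num) (by omega)
          have g4 : 1 ≤ 2 ^ thP M G k := Nat.one_le_two_pow
          rw [pow_succ]
          omega
        calc q k ^ 4 * (514 + 2 * 2 ^ thP M G k + 2 ^ laP M k)
            ≤ 2 ^ (4 * a + 4) * 2 ^ (laP M k + 1) := Nat.mul_le_mul g1 g2
          _ = 2 ^ (4 * (k + 1) ^ M + 8 * u') := by
            rw [← pow_add]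
            congr 1
            omega
    · intro j hj1 hj2 hc n hn1 hn2
      have hqpos : 0 < q k ^ 4 := pow_pos (hq k).1.pos 4
      have g1 : q k ^ 4 ≤ 2 ^ (4 * a + 4) := by
        calc q k ^ 4 ≤ (2 ^ (a + 1)) ^ 4 := Nat.pow_le_pow_left hqk2 4
          _ = _ := by rw [← pow_mul]; congr 1; ring
      have g1' : 2 ^ (4 * a) ≤ q k ^ 4 := by
        calc 2 ^ (4 * a) = (2 ^ a) ^ 4 := by rw [← pow_mul]; congr 1; ring
          _ ≤ q k ^ 4 := Nat.pow_le_pow_left hqk1.le 4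
      have g2 : 2 ^ (j - 4 * a - 4) ≤ n / q k ^ 4 := by
        rw [Nat.le_div_iff_mul_le hqpos]
        calc 2 ^ (j - 4 * a - 4) * q k ^ 4 ≤ 2 ^ (j - 4 * a - 4) * 2 ^ (4 * a + 4) :=
              Nat.mul_le_mul_left _ g1
          _ = 2 ^ j := by
            rw [← pow_add]
            congr 1
            omega
          _ ≤ n := hn1
      have g3 : n / q k ^ 4 < 2 ^ (j + 1 - 4 * a) := by
        rw [Nat.div_lt_iff_lt_mul hqpos]
        calc n < 2 ^ (j + 1) := hn2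
          _ = 2 ^ (j + 1 - 4 * a) * 2 ^ (4 * a) := by
            rw [← pow_add]
            congr 1
            omega
          _ ≤ _ := Nat.mul_le_mul_left _ g1'
      have g4 : 2 ^ (thP M G k + 3) * 2 = 2 ^ (thP M G k + 4) := by rw [pow_succ 2 (thP M G k + 3)]
      have g5 : 2 ^ (thP M G k + 3) ≤ 2 ^ (j - 4 * a - 5) :=
        Nat.pow_le_pow_right (by norm_num) (by omega)
      have g6 : 2 ^ (j - 4 * a - 4) = 2 ^ (j - 4 * a - 5) * 2 := by
        rw [← pow_succ]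
        congr 1
        omega
      have g7 : 2 ^ (thP M G k + 3) = 2 ^ thP M G k * 8 := by rw [pow_add]; norm_num
      have g8 : 1 ≤ 2 ^ thP M G k := Nat.one_le_two_pow
      refine hA3 n (by omega) ?_
      intro m hm1 hm2
      have g9 : 2 ^ (j - 4 * a - 5) ≤ m := by omega
      have g10 : m < 2 ^ (j + 1 - 4 * a) := lt_of_le_of_lt hm2 g3
      -- the block of m
      have hmpos : m ≠ 0 := by
        have : 0 < 2 ^ (j - 4 * a - 5) := by positivity
        omega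
      have hlog1 : 2 ^ Nat.log 2 m ≤ m := Nat.pow_log_le_self 2 hmpos
      have hlog2 : m < 2 ^ (Nat.log 2 m + 1) := Nat.lt_pow_succ_log_self (by norm_num) m
      have hlog3 : j - 4 * a - 5 ≤ Nat.log 2 m := Nat.le_log_of_pow_le (by norm_num) g9
      have hlog4 : Nat.log 2 m < j + 1 - 4 * a := Nat.log_lt_of_lt_pow hmpos g10
      have hi : j - 4 * a - (j - 4 * a - Nat.log 2 m) = Nat.log 2 m := by omega
      have h3 := hc (j - 4 * a - Nat.log 2 m) (by omega) m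
      rw [hi] at h3
      exact h3 hlog1 hlog2
    · intro i hi1 hi2 r
      have hmem : q i ^ 2 ∈ modP M k q := by
        unfold modP
        rw [mem_union, mem_image]
        exact Or.inl ⟨i, (mem_nearP hM1).mpr ⟨hi1, hi2⟩, rfl⟩
      have e2 : yf M G k q (q i ^ 2) = 2 ^ (4 * uP M i + 4 * i ^ G) :=
        (sq_injective hM1 hq).extend_apply _ _ i
      have := hA4 _ hmem r
      rwa [e2] at this
    · intro i hi1 hi2 r
      have hmem : q i ^ 4 ∈ modP M k q := by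
        unfold modP
        rw [mem_union, mem_image, mem_image]
        exact Or.inr ⟨i, (mem_nearP hM1).mpr ⟨hi1, hi2⟩, rfl⟩
      have e2 : yf M G k q (q i ^ 4) = 8 * k :=
        Function.extend_apply' _ _ _ (sq_ne_four hq i)
      have := hA4 _ hmem r
      rwa [e2] at this
    · intro n
      rcases lt_or_ge n (2 ^ (6 * a)) with hn | hn
      · exact hA5 n hn
      · have : (A ×ˢ O).filter (fun z => z.1 + z.2 = n) = ∅ := by
          rw [filter_eq_empty_iff]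
          intro z hz hzn
          rw [mem_product] at hz
          have g1 := (hA1 _ hz.1).2
          have g2 := hO _ hz.2
          have g3 : 2 ^ (4 * a + 8 * u) ≤ 2 ^ (6 * a - 1) :=
            Nat.pow_le_pow_right (by norm_num) (by omega)
          have g4 : q k ^ 4 * (514 + 2 * 2 ^ thP M G k + 2 ^ laP M k) ≤ 2 ^ (6 * a - 1) := by
            have g1 : q k ^ 4 ≤ 2 ^ (4 * a + 4) := by
              calc q k ^ 4 ≤ (2 ^ (a + 1)) ^ 4 := Nat.pow_le_pow_left hqk2 4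
                _ = _ := by rw [← pow_mul]; congr 1; ring
            have g2 : 514 + 2 * 2 ^ thP M G k + 2 ^ laP M k ≤ 2 ^ (laP M k + 1) := by
              have g3 : 2 ^ 10 * 2 ^ thP M G k ≤ 2 ^ laP M k := by
                rw [← pow_add]
                exact Nat.pow_le_pow_right (by norm_num) (by omega)
              have g4 : 1 ≤ 2 ^ thP M G k := Nat.one_le_two_pow
              rw [pow_succ]
              omega
            calc q k ^ 4 * (514 + 2 * 2 ^ thP M G k + 2 ^ laP M k)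
                ≤ 2 ^ (4 * a + 4) * 2 ^ (laP M k + 1) := Nat.mul_le_mul g1 g2
              _ = 2 ^ (4 * a + 4 + (laP M k + 1)) := by rw [← pow_add]
              _ ≤ _ := Nat.pow_le_pow_right (by norm_num) (by omega)
          have g5 : 2 ^ (6 * a) = 2 ^ (6 * a - 1) * 2 := by
            rw [← pow_succ]
            congr 1
            omega
          omega
        rw [this, card_empty]
        exact Nat.zero_le _

end Pool.Agent.Helper53.WR
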