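import Pool.Agent.Helper53.WR.Defs

/-!
# Parameters of the construction

`a k = k ^ M` (the primes satisfy `2 ^ a k < q k ≤ 2 ^ (a k + 1)`), `η k = k ^ G`,
`u k = M * k ^ (M - 1)`, `L k = 8 u k`, `θ k = L k + 64 η k`,
`Λ k = 4 (a (k + 1) - a k) + L (k + 1) - 5`.
-/

set_option autoImplicit false

namespace Pool.Agent.Helper53.WR

open Finset

/-- `u k = M * k ^ (M - 1)` -/
def uP (M k : ℕ) : ℕ := M * k ^ (M - 1)

/-- `θ k` -/
def thP (M G k : ℕ) : ℕ := 8 * uP M k + 64 * k ^ G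

/-- `Λ k` -/
def laP (M k : ℕ) : ℕ := 4 * ((k + 1) ^ M - k ^ M) + 8 * uP M (k + 1) - 5

/-- The numerical conditions on `k`. -/
structure Num (M G : ℕ) (f : ℕ → ℕ) (k : ℕ) : Prop where
  hM : 3 ≤ M
  hG : 1 ≤ G
  hGM : G + 2 ≤ M
  h1 : 6 * (k + 1) ^ (M - 1) ≤ 7 * k ^ (M - 1)
  h2 : 100 * M ≤ k
  h3 : f k ≤ 2 ^ k ^ G
  h4 : 20 * k ^ M ≤ 2 ^ k ^ G

lemma pow_succ_le (M k : ℕ) : (k + 1) ^ M ≤ k ^ M + M * (k + 1) ^ (M - 1) := by
  induction M with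
  | zero => simp
  | succ M ih =>
    rcases Nat.eq_zero_or_pos M with rfl | hM
    · simp
    · have e : (k + 1) ^ (M - 1) * (k + 1) = (k + 1) ^ M := by
        rw [← pow_succ, Nat.sub_add_cancel hM]
      have h1 : k ^ M ≤ (k + 1) ^ M := Nat.pow_le_pow_left (Nat.le_succ k) M
      calc (k + 1) ^ (M + 1) = (k + 1) ^ M * (k + 1) := pow_succ _ _
        _ ≤ (k ^ M + M * (k + 1) ^ (M - 1)) * (k + 1) := Nat.mul_le_mul_right _ ih
        _ = k ^ (M + 1) + k ^ M + M * ((k + 1) ^ (M - 1) * (k + 1)) := by ring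
        _ = k ^ (M + 1) + k ^ M + M * (k + 1) ^ M := by rw [e]
        _ ≤ k ^ (M + 1) + (M + 1) * (k + 1) ^ M := by nlinarith
        _ = k ^ (M + 1) + (M + 1) * (k + 1) ^ (M + 1 - 1) := by simp

lemma le_pow_succ (M k : ℕ) (hM : 1 ≤ M) : k ^ M + M * k ^ (M - 1) ≤ (k + 1) ^ M := by
  induction M, hM using Nat.le_induction with
  | base => simp
  | succ M hM ih =>
    have e : k ^ (M - 1) * k = k ^ M := by
      rw [← pow_succ, Nat.sub_add_cancel hM]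
    calc k ^ (M + 1) + (M + 1) * k ^ (M + 1 - 1) = k ^ (M + 1) + (M + 1) * k ^ M := by simp
      _ ≤ k ^ (M + 1) + (M + 1) * k ^ M + M * k ^ (M - 1) := Nat.le_add_right _ _
      _ = (k ^ M + M * k ^ (M - 1)) * k + k ^ M + M * k ^ (M - 1) := by
        have : (k ^ M + M * k ^ (M - 1)) * k = k ^ (M + 1) + M * (k ^ (M - 1) * k) := by ring
        rw [this, e]
        ring
      _ = (k ^ M + M * k ^ (M - 1)) * (k + 1) := by ring
      _ ≤ (k + 1) ^ M * (k + 1) := Nat.mul_le_mul_right _ ih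
      _ = (k + 1) ^ (M + 1) := (pow_succ _ _).symm

/-- Linear facts. Here `a = k ^ M`, `e = k ^ G`, `u = uP M k`, `u' = uP M (k + 1)`,
`d = (k + 1) ^ M - k ^ M`. -/
structure Lin (k a e u u' d : ℕ) : Prop where
  k300 : 300 ≤ k
  ke : k ≤ e
  eu : 100 * e ≤ u
  ua : 100 * u ≤ a
  uu : 6 * u' ≤ 7 * u
  uu' : u ≤ u'
  ud : u ≤ d
  du : d ≤ u'

lemma Num.lin {M G : ℕ} {f : ℕ → ℕ} {k : ℕ} (h : Num M G f k) :
    Lin k (k ^ M) (k ^ G) (uP M k) (uP M (k + 1)) ((k + 1) ^ M - k ^ M) := by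
  obtain ⟨hM, hG, hGM, h1, h2, h3, h4⟩ := h
  have hk : 300 ≤ k := by omega
  have hkpos : 0 < k := by omega
  have e1 : k ^ (M - 1) * k = k ^ M := by
    rw [← pow_succ, Nat.sub_add_cancel (by omega)]
  have e2 : k ^ G * k ≤ k ^ (M - 1) := by
    rw [← pow_succ]
    exact Nat.pow_le_pow_right hkpos (by omega)
  have e3 : k ≤ k ^ G := Nat.le_self_pow (by omega) k
  unfold uP
  have a1 := pow_succ_le M k
  have a2 := le_pow_succ M k (by omega)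
  have a3 : k ^ (M - 1) ≤ (k + 1) ^ (M - 1) := Nat.pow_le_pow_left (Nat.le_succ k) _
  refine ⟨hk, e3, ?_, ?_, ?_, Nat.mul_le_mul_left _ a3, ?_, ?_⟩
  · have : 100 * k ^ G ≤ k ^ (M - 1) := by nlinarith
    nlinarith
  · rw [← e1]
    nlinarith [Nat.zero_le (k ^ (M - 1))]
  · nlinarith
  · omega
  · omega

lemma laP_add {M k : ℕ} (hM : 1 ≤ M) : laP M k + 5 = 4 * ((k + 1) ^ M - k ^ M) + 8 * uP M (k + 1) := by
  unfold laP uP
  have : 1 ≤ (k + 1) ^ (M - 1) := Nat.one_le_pow _ _ (by omega)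
  have h2 : 1 ≤ M * (k + 1) ^ (M - 1) := Nat.mul_pos hM this
  omega

end Pool.Agent.Helper53.WR
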