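import Pool.Agent.Helper53.WR.OneWorld
import Pool.Agent.Helper52.WR.E5b
import Pool.Agent.Helper7.WR.E2
import Pool.Agent.Helper30.WR.GlobalSet
import Pool.Agent.Helper81.WR.E5a
import Pool.Agent.Helper67.WR.E6
import Pool.Agent.Helper40.WR.IterateStep
import Pool.Agent.Helper93.WR.Final

set_option autoImplicit false

namespace Pool.Agent.Helper53.WR

open Finset Filter

/-- One step of the recursion. -/
theorem step_lemma (M G : ℕ) (hM : 3 ≤ M) (hG : 1 ≤ G) (hGM : G + 2 ≤ M) (β γ : ℝ) (hβ : 0 ≤ β)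
    (hγ : 0 ≤ γ) (h : HasExp β γ) :
    HasExp (max ((1 - 1 / (M : ℝ)) * β) (((M : ℝ) - G + 2) / M))
        (max (((G : ℝ) + 1) / M) ((1 + ((M : ℝ) - 1) * γ) / M)) := by
  obtain ⟨T, ⟨C, hC⟩, ⟨C2, hC2⟩⟩ := h
  have hC0 : 0 ≤ max C 0 := le_max_right _ _
  obtain ⟨k0, hk0⟩ := Helper7.WR.num_eventually M G hM hG hGM (max C 0) β hC0 hβ
  have hT : ∀ k, k0 ≤ k → ∀ n, n < 2 ^ (laP M k + 1) →
      rep T n ≤ (fun k => ⌊(max C 0) * ((laP M k + 1 : ℕ) : ℝ) ^ β⌋₊) k := by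
    intro k _ n hn
    apply Nat.le_floor
    refine (hC (laP M k + 1) (Nat.succ_le_succ (Nat.zero_le _)) n hn).trans ?_
    exact mul_le_mul_of_nonneg_right (le_max_left _ _) (by positivity)
  obtain ⟨A, hA0, hA1, hA2⟩ := Helper30.WR.global_set hk0 T hT
  exact ⟨A, Helper81.WR.step_rep M G hM hG hGM (max C 0) β hC0 hβ k0 A hA0 hA1,
    Helper52.WR.step_bad M G hM hG hGM T A k0 hA2 C2 γ hγ hC2⟩

/-- The exponents `ρ + ε` and `1 - ρ + ε` are possible. -/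
theorem hasExp_all (ρ ε : ℝ) (hρ0 : 0 < ρ) (hρ1 : ρ < 1) (hε : 0 < ε) :
    HasExp (ρ + ε) (1 - ρ + ε) :=
  Helper40.WR.iterate_step Helper67.WR.hasExp_base
    (fun M G hM hG hGM β γ hβ hγ h => step_lemma M G hM hG hGM β γ hβ hγ h) ρ ε hρ0 hρ1 hε

/-- Final form. -/
theorem almost_all_scales (ρ ε : ℝ) (hρ0 : 0 < ρ) (hρ1 : ρ < 1) (hε : 0 < ε) :
    ∃ A : Set ℕ, (∀ᶠ n : ℕ in atTop, (rep A n : ℝ) ≤ (Real.log n) ^ (ρ + ε)) ∧
      ∀ᶠ J : ℕ in atTop, (badCount A J : ℝ) ≤ (J : ℝ) ^ (1 - ρ + ε) :=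
  Helper93.WR.final_form hasExp_all ρ ε hρ0 hρ1 hε

end Pool.Agent.Helper53.WR
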